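import Pool.Agent.Helper79_MWD.HTm
import Pool.Agent.Helper11_MWD.FIN3

/-!
# No rigid words: the class of `P y c y Q` is not contained in the words `P y c y^i Q`

No condition on the powers (all periods).
-/

namespace Pool.Agent.Helper79_MWD

open Pool.Agent.Helper14_MV Pool.Agent.Helper2_MV Pool.Agent.MVD

/-- the half thin word with exponent `i` -/
def Wi (P Q : List ℕ) (m i : ℕ) : List ℕ :=
  Wm P Q (0 :: (zs (List.range m) ++ List.replicate i 0))

theorem wi_eq (P Q : List ℕ) (m i : ℕ) : Wi P Q m i =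
    (pq P ++ 0 :: (zs (List.range m) ++ List.replicate i 0)) ++ 2 :: pq Q := by
  unfold Wi
  rw [wm_eq]
  simp only [List.append_assoc]

/-- the substitution `2 ↦ 0^k 2` -/
def gk (k : ℕ) (x : ℕ) : List ℕ := if x = 2 then List.replicate k 0 ++ [2] else [x]

theorem gk_self (k : ℕ) {L : List ℕ} (h : 2 ∉ L) : L.flatMap (gk k) = L := by
  induction L with
  | nil => rfl
  | cons d L ih =>
    have hd : d ≠ 2 := fun e => h (by simp [e])
    rw [List.flatMap_cons, ih (fun hh => h (by simp [hh]))]
    unfold gk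
    rw [if_neg hd]
    rfl

theorem gk_two (k : ℕ) : gk k 2 = List.replicate k 0 ++ [2] := by
  unfold gk
  rw [if_pos rfl]

theorem gk_split (k : ℕ) {U V : List ℕ} (hU : 2 ∉ U) (hV : 2 ∉ V) :
    (U ++ 2 :: V).flatMap (gk k) = (U ++ List.replicate k 0) ++ 2 :: V := by
  rw [List.flatMap_append, List.flatMap_cons, gk_self k hU, gk_self k hV, gk_two]
  simp only [List.append_assoc, List.cons_append, List.nil_append]

theorem two_notMem {P Q : List ℕ} {m : ℕ} (h1 : 1 ≤ m) (hp : (P ++ Q).Perm (List.range m))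
    (i : ℕ) : 2 ∉ pq P ++ 0 :: (zs (List.range m) ++ List.replicate i 0) := by
  have D := dat h1 hp
  simp only [List.mem_append, List.mem_cons, not_or]
  refine ⟨D.tp, by omega, D.tc, ?_⟩
  intro h
  have := List.eq_of_mem_replicate h
  omega

theorem wi_shift {P Q : List ℕ} {m : ℕ} (h1 : 1 ≤ m)
    (hp : (P ++ Q).Perm (List.range m)) (k i : ℕ) :
    (Wi P Q m i).flatMap (gk k) = Wi P Q m (i + k) := by
  rw [wi_eq, gk_split k (two_notMem h1 hp i) (dat h1 hp).tq, wi_eq, List.replicate_add]
  simp only [List.append_assoc, List.cons_append]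

theorem sh_iff {P Q : List ℕ} {m : ℕ} {w : List ℕ} : SHt P Q m w ↔ ∃ i, 1 ≤ i ∧ w = Wi P Q m i :=
  Iff.rfl

/-- **N2'** for all periods: the class of `P y c y Q` contains a word which is not half thin. -/
theorem n2q {β : FIC} (hm : ModF β) (H : Iso3 β) {P Q : List ℕ} {m : ℕ} (h1 : 1 ≤ m)
    (hp : (P ++ Q).Perm (List.range m)) : ∃ w', RR β (bw P Q m) w' ∧ ¬ SHt P Q m w' := by
  by_contra hcon
  have hall : ∀ w', RR β (bw P Q m) w' → SHt P Q m w' := by
    intro w' hw
    by_contra hh
    exact hcon ⟨w', hw, hh⟩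
  obtain ⟨w0, hw0, hn0⟩ := Pool.Agent.MWD.H11.n2tF β hm H P Q m h1 hp
  have D := dat h1 hp
  have hbw : bw P Q m = Wi P Q m 1 := rfl
  obtain ⟨i, hi, rfl⟩ := hall w0 hw0
  have hi2 : 2 ≤ i := by
    by_contra h2
    have hi1 : i = 1 := by omega
    subst hi1
    apply hn0
    rw [wm_eq]
    refine ⟨?_, ?_⟩
    · simp only [List.cons_append, List.count_append, List.count_cons, List.count_replicate,
        beq_iff_eq, beq_self_eq_true, if_true, List.count_eq_zero.2 D.p0,
        List.count_eq_zero.2 D.c0, List.count_eq_zero.2 D.q0]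
      simp
    · intro e he
      refine ⟨pq P, zs (List.range m), 2 :: pq Q, ?_, zs_mem.2 ⟨e, he, rfl⟩⟩
      simp [List.replicate]
  obtain ⟨e, he, rfl⟩ : ∃ e, 1 ≤ e ∧ i = 1 + e := ⟨i - 1, by omega, by omega⟩
  have hstep : RR β (Wi P Q m 1) (Wi P Q m (1 + e)) := hw0
  have shift : ∀ {a b : ℕ} (k : ℕ), RR β (Wi P Q m a) (Wi P Q m b) →
      RR β (Wi P Q m (a + k)) (Wi P Q m (b + k)) := by
    intro a b k h
    have h2 := h.sub (gk k)
    rw [wi_shift h1 hp, wi_shift h1 hp] at h2
    exact h2
  have iter : ∀ q : ℕ, RR β (Wi P Q m 1) (Wi P Q m (1 + e * q)) := by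
    intro q
    induction q with
    | zero => exact RR.refl _
    | succ q ih =>
      have h2 := shift (e * q) hstep
      have e1 : 1 + e + e * q = 1 + e * (q + 1) := by
        rw [Nat.mul_succ]
        omega
      rw [e1] at h2
      exact β.trans ih h2
  obtain ⟨w, w', h4, ⟨j, hj, rfl⟩, h5⟩ := ht hm H h1 hp
  have h4' : RR β (Wi P Q m j) w' := h4
  apply h5
  -- shift so that the exponent is `1 + e j`
  obtain ⟨k, hk⟩ : ∃ k, j + k = 1 + e * j := by
    have : j ≤ e * j := Nat.le_mul_of_pos_left j he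
    exact ⟨1 + e * j - j, by omega⟩
  have h6 := h4'.sub (gk k)
  rw [wi_shift h1 hp, hk] at h6
  obtain ⟨j', hj', h7⟩ := hall _ (β.trans (iter j) h6)
  have h7' : w'.flatMap (gk k) = Wi P Q m j' := h7
  have c2 : (Wi P Q m j).count 2 = 1 := by
    rw [wi_eq, List.count_append, List.count_cons_self,
      List.count_eq_zero.2 (two_notMem h1 hp j), List.count_eq_zero.2 D.tq]
  obtain ⟨U, V, hUV, h2U, h2V⟩ := split1 (count_lin H h4' c2)
  rw [hUV, gk_split k h2U h2V, wi_eq] at h7'
  have h2U' : 2 ∉ U ++ List.replicate k 0 := by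
    intro hh
    rcases List.mem_append.1 hh with hh | hh
    · exact h2U hh
    · have := List.eq_of_mem_replicate hh
      omega
  obtain ⟨h8, h9⟩ := split_unique h2U' (two_notMem h1 hp j') h7'
  have h8' : U ++ List.replicate k 0 =
      (pq P ++ 0 :: zs (List.range m)) ++ List.replicate j' 0 := by
    rw [h8]
    simp only [List.append_assoc, List.cons_append]
  rcases Nat.lt_or_ge j' k with hlt | hge
  · exfalso
    obtain ⟨d, hd⟩ : ∃ d, k = (d + 1) + j' := ⟨k - j' - 1, by omega⟩
    rw [hd, List.replicate_add, ← List.append_assoc] at h8'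
    have h10 := List.append_cancel_right h8'
    rw [List.replicate_succ', ← List.append_assoc] at h10
    obtain ⟨zl, z, hz⟩ : ∃ zl z, zs (List.range m) = zl ++ [z] := by
      rcases List.eq_nil_or_concat (zs (List.range m)) with h | ⟨zl, z, h⟩
      · exact absurd h D.ne
      · exact ⟨zl, z, by rw [h, List.concat_eq_append]⟩
    rw [hz] at h10
    have h11 : pq P ++ 0 :: (zl ++ [z]) = (pq P ++ 0 :: zl) ++ [z] := by simp
    rw [h11] at h10
    have h12 := (List.append_inj' h10 rfl).2
    simp only [List.cons.injEq, and_true] at h12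
    have hzm : z ∈ zs (List.range m) := by rw [hz]; simp
    exact D.c0 (h12 ▸ hzm)
  · obtain ⟨d, rfl⟩ : ∃ d, j' = d + k := ⟨j' - k, by omega⟩
    rw [List.replicate_add, ← List.append_assoc] at h8'
    have h10 := List.append_cancel_right h8'
    have h11 : w' = Wi P Q m d := by
      rw [hUV, h10, h9, wi_eq]
      simp only [List.append_assoc, List.cons_append]
    have cw : ∀ a : ℕ, (Wi P Q m a).count 0 = a + 1 := by
      intro a
      rw [wi_eq]
      simp only [List.cons_append, List.count_append, List.count_cons, List.count_replicate,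
        beq_iff_eq, beq_self_eq_true, if_true, List.count_eq_zero.2 D.p0,
        List.count_eq_zero.2 D.c0, List.count_eq_zero.2 D.q0]
      rw [if_neg D.t0]
      omega
    refine ⟨d, ?_, h11⟩
    by_contra hd
    have hd0 : d = 0 := by omega
    subst hd0
    have h12 : w'.count 0 = 1 := by rw [h11, cw]
    have h13 := count_lin H h4'.symm h12
    rw [cw] at h13
    omega

end Pool.Agent.Helper79_MWD
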