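import Pool.Agent.Helper79_MWD.HTc

/-!
# Half thin local letters (lemma HT)

If `xyx` is an isoterm and the modular law holds above `β`, then the set of the words
`P x z_1 … z_m x^i Q`, `i ≥ 1` (the `z_e` have one further occurrence, at an isolated place in `P`
or `Q`) is not kept by `β`.
-/

namespace Pool.Agent.Helper79_MWD

open Pool.Agent.Helper14_MV Pool.Agent.Helper2_MV Pool.Agent.MVD

theorem rr_ctx {β : FIC} {u v : List ℕ} (h : RR β u v) (M N : List ℕ) :
    RR β (M ++ (u ++ N)) (M ++ (v ++ N)) :=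
  (RR.refl M).append (h.append (RR.refl N))

/-- the abstract form of the lemma -/
theorem ht_abs {β : FIC} (hm : ModF β) (H : Iso3 β) {pl c ql : List ℕ} {r s t : ℕ}
    (D : Dat pl c ql r s t) : ¬ KS pl c ql t β := by
  intro K
  obtain ⟨z, c', hc, hz0, hzt, hzs, hzr⟩ := c_head D
  let J2 : List ℕ × List ℕ := (Ul pl c r [0, 0] (s :: t :: ql), Ur pl c r [0, 0] (s :: t :: ql))
  let J8 : List ℕ × List ℕ :=
    (Ul pl c r [0] (s :: 0 :: 0 :: t :: ql), Ur pl c r [0] (s :: 0 :: 0 :: t :: ql))
  let D0 : List ℕ × List ℕ := ([0, 0, 1, 0], [0, 1, 0, 0])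
  obtain ⟨ρ, hρ, gρ, mρ, pρ⟩ := H32.gen β (fun e => e = J2)
  obtain ⟨σ, hσ, gσ, mσ, pσ⟩ := H32.gen β (fun e => e = D0)
  obtain ⟨τ, hτ, gτ, mτ, pτ⟩ := H32.gen β (fun e => e = J2 ∨ e = J8)
  have hle : ρ ≤ τ := mρ τ hτ (fun e he => gτ e (Or.inl he))
  have c0' : ∀ y, ql.count y ≤ (s :: t :: ql).count y := by
    intro y
    simp only [List.count_cons]
    omega
  have c1' : ∀ y, ql.count y ≤ (s :: 0 :: 0 :: t :: ql).count y := by
    intro y
    simp only [List.count_cons]
    omega
  -- membership
  have AB : ∀ w, A0 pl c ql r s t w → B0 pl c ql r s t w ∧ C0 s t w := by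
    rintro w ⟨i, hi, rfl⟩
    refine ⟨⟨1, i, Or.inl ⟨rfl, hi⟩, rfl⟩, i, hi, ?_⟩
    have n : ∀ L : List ℕ, 0 ∉ L → s ∉ L → t ∉ L →
        L.filter (fun x => decide (x = 0 ∨ x = s ∨ x = t)) = [] := by
      intro L h1 h2 h3
      rw [List.filter_eq_nil_iff]
      intro x hx
      have k1 : x ≠ 0 := fun e => h1 (e ▸ hx)
      have k2 : x ≠ s := fun e => h2 (e ▸ hx)
      have k3 : x ≠ t := fun e => h3 (e ▸ hx)
      simp [k1, k2, k3]
    have z : ∀ k : ℕ, (List.replicate k 0).filter (fun x => decide (x = 0 ∨ x = s ∨ x = t)) =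
        List.replicate k 0 := by
      intro k
      rw [List.filter_eq_self]
      intro x hx
      rw [List.eq_of_mem_replicate hx]
      simp
    unfold Wd
    rw [List.filter_append, n pl D.p0 D.sp D.tp, List.filter_cons_of_neg (by
      simp only [decide_eq_true_eq, not_or]
      exact ⟨D.r0, D.rs, D.rt⟩), List.filter_append, n c D.c0 D.sc D.tc, List.filter_append, z,
      List.filter_cons_of_pos (by simp), List.filter_append, z, List.filter_cons_of_pos (by simp),
      n ql D.q0 D.sq D.tq]
    rfl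
  have fz : ∀ a b : ℕ, (Wd pl c ql r s t a b).filter (fun x => decide (x = 0 ∨ x = s ∨ x = t)) =
      List.replicate a 0 ++ s :: (List.replicate b 0 ++ [t]) := by
    intro a b
    have n : ∀ L : List ℕ, 0 ∉ L → s ∉ L → t ∉ L →
        L.filter (fun x => decide (x = 0 ∨ x = s ∨ x = t)) = [] := by
      intro L h1 h2 h3
      rw [List.filter_eq_nil_iff]
      intro x hx
      have k1 : x ≠ 0 := fun e => h1 (e ▸ hx)
      have k2 : x ≠ s := fun e => h2 (e ▸ hx)
      have k3 : x ≠ t := fun e => h3 (e ▸ hx)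
      simp [k1, k2, k3]
    have z : ∀ k : ℕ, (List.replicate k 0).filter (fun x => decide (x = 0 ∨ x = s ∨ x = t)) =
        List.replicate k 0 := by
      intro k
      rw [List.filter_eq_self]
      intro x hx
      rw [List.eq_of_mem_replicate hx]
      simp
    unfold Wd
    rw [List.filter_append, n pl D.p0 D.sp D.tp, List.filter_cons_of_neg (by
      simp only [decide_eq_true_eq, not_or]
      exact ⟨D.r0, D.rs, D.rt⟩), List.filter_append, n c D.c0 D.sc D.tc, List.filter_append, z,
      List.filter_cons_of_pos (by simp), List.filter_append, z, List.filter_cons_of_pos (by simp),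
      n ql D.q0 D.sq D.tq]
    rfl
  have BA : ∀ w, B0 pl c ql r s t w → C0 s t w → A0 pl c ql r s t w := by
    rintro w ⟨a, b, hab, rfl⟩ ⟨i, hi, h⟩
    rw [fz] at h
    obtain ⟨a1, rfl⟩ : ∃ a1, a = a1 + 1 := ⟨a - 1, by omega⟩
    rcases a1 with _ | a1
    · rcases hab with ⟨_, hb⟩ | hab
      · exact ⟨b, hb, rfl⟩
      · omega
    · rw [List.replicate_succ, List.replicate_succ] at h
      simp only [List.cons_append, List.cons.injEq] at h
      exact absurd h.2.1.symm D.s0
  -- invariance
  have kA : ∀ w w', RR ρ w w' → A0 pl c ql r s t w → A0 pl c ql r s t w' := by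
    apply pρ
    · intro w w' h hw
      obtain ⟨h1, h2⟩ := AB w hw
      exact BA w' (keepB D H K h h1) (keepC D H K h h2)
    · rintro e rfl φ M N
      constructor
      · intro h
        have := stepX D φ M N (Or.inl h)
        change A0 pl c ql r s t (M ++ ((Ur pl c r [0, 0] (s :: t :: ql)).flatMap φ ++ N))
        rw [← this]
        exact h
      · intro h
        have := stepX D φ M N (Or.inr h)
        change A0 pl c ql r s t (M ++ ((Ul pl c r [0, 0] (s :: t :: ql)).flatMap φ ++ N))
        rw [this]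
        exact h
  have kB : ∀ w w', RR σ w w' → B0 pl c ql r s t w → B0 pl c ql r s t w' := by
    apply pσ
    · intro w w' h hw
      exact keepB D H K h hw
    · rintro e rfl φ M N
      exact stepY D φ M N
  have kC : ∀ w w', RR τ w w' → C0 s t w → C0 s t w' := by
    apply pτ
    · intro w w' h hw
      exact keepC D H K h hw
    · rintro e (rfl | rfl) φ M N
      · exact stepZ D φ M N [0, 0] (s :: t :: ql) (by simp) (by simp) c0'
      · exact stepZ D φ M N [0] (s :: 0 :: 0 :: t :: ql) (by simp)
          (by simp only [List.cons_append, List.nil_append, List.count_cons, beq_iff_eq,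
                beq_self_eq_true, if_true]; omega) c1'
  -- the two words
  have e0 : Wd pl c ql r s t 1 2 = Ul pl c r [0] (s :: 0 :: 0 :: t :: ql) := by
    unfold Wd Ul
    rfl
  have hA1 : ¬ A0 pl c ql r s t (Ur pl c r [0] (s :: 0 :: 0 :: t :: ql)) := by
    rintro ⟨i, _, h⟩
    unfold Ur Wd at h
    have h1 := List.append_cancel_left h
    rw [hc] at h1
    simp only [List.cons_append, List.nil_append, List.cons.injEq, true_and] at h1
    exact hz0 h1.1.symm
  refine H21.pen β hm ρ σ τ _ _ _ hρ hσ hτ hle kA kB kC AB BA _ _ ⟨2, le_refl _, rfl⟩ hA1 ?_ ?_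
  · rw [e0]
    exact gτ J8 (Or.inr rfl)
  · -- the chain
    have hD0 : RR σ [0, 0, 1, 0] [0, 1, 0, 0] := gσ D0 rfl
    have s1 : RR σ (Wd pl c ql r s t 1 2) (Wd pl c ql r s t 2 1) := by
      have h1 := hD0.sub (fun x => if x = 0 then [0] else [s])
      have h2 := (rr_ctx h1 (pl ++ r :: c) (t :: ql)).symm
      have e1 : (pl ++ r :: c) ++ (([0, 1, 0, 0] : List ℕ).flatMap
          (fun x => if x = 0 then [0] else [s]) ++ (t :: ql)) = Wd pl c ql r s t 1 2 := by
        unfold Wd
        simp [List.replicate]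
      have e2 : (pl ++ r :: c) ++ (([0, 0, 1, 0] : List ℕ).flatMap
          (fun x => if x = 0 then [0] else [s]) ++ (t :: ql)) = Wd pl c ql r s t 2 1 := by
        unfold Wd
        simp [List.replicate]
      rw [e1, e2] at h2
      exact h2
    have s2 : RR ρ (Wd pl c ql r s t 2 1) (Ur pl c r [0, 0] (s :: 0 :: t :: ql)) := by
      have h1 : RR ρ (Ul pl c r [0, 0] (s :: t :: ql)) (Ur pl c r [0, 0] (s :: t :: ql)) :=
        gρ J2 rfl
      have h2 := h1.sub (fun x => if x = s then [s, 0] else [x])
      have id' : ∀ L : List ℕ, s ∉ L → L.flatMap (fun x => if x = s then [s, 0] else [x]) = L := by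
        intro L hL
        induction L with
        | nil => rfl
        | cons d L ih =>
          have hd : d ≠ s := fun e => hL (by simp [e])
          rw [List.flatMap_cons, ih (fun hh => hL (by simp [hh])), if_neg hd]
          rfl
      have e1 : (Ul pl c r [0, 0] (s :: t :: ql)).flatMap (fun x => if x = s then [s, 0] else [x]) =
          Wd pl c ql r s t 2 1 := by
        rw [ul_flatMap, id' pl D.sp, id' c D.sc, id' [0, 0] (by simp [D.s0]),
          List.flatMap_cons, List.flatMap_cons, id' ql D.sq]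
        unfold Wd
        simp [D.rs, Ne.symm D.st, List.replicate]
      have e2 : (Ur pl c r [0, 0] (s :: t :: ql)).flatMap (fun x => if x = s then [s, 0] else [x]) =
          Ur pl c r [0, 0] (s :: 0 :: t :: ql) := by
        rw [ur_flatMap, id' pl D.sp, id' c D.sc, id' [0, 0] (by simp [D.s0]),
          List.flatMap_cons, List.flatMap_cons, id' ql D.sq]
        unfold Ur
        simp [D.rs, Ne.symm D.st]
      rw [e1, e2] at h2
      exact h2
    have s3 : RR σ (Ur pl c r [0, 0] (s :: 0 :: t :: ql))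
        (Ur pl c r [0] (s :: 0 :: 0 :: t :: ql)) := by
      have h1 := hD0.sub (fun x => if x = 0 then [0] else c ++ [s])
      have h2 := rr_ctx h1 (pl ++ [r]) (t :: ql)
      have e1 : (pl ++ [r]) ++ (([0, 0, 1, 0] : List ℕ).flatMap
          (fun x => if x = 0 then [0] else c ++ [s]) ++ (t :: ql)) =
            Ur pl c r [0, 0] (s :: 0 :: t :: ql) := by
        unfold Ur
        simp
      have e2 : (pl ++ [r]) ++ (([0, 1, 0, 0] : List ℕ).flatMap
          (fun x => if x = 0 then [0] else c ++ [s]) ++ (t :: ql)) =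
            Ur pl c r [0] (s :: 0 :: 0 :: t :: ql) := by
        unfold Ur
        simp
      rw [e1, e2] at h2
      exact h2
    exact (FIC.sup ρ σ).trans ((FIC.le_sup_right _ _) _ _ s1)
      ((FIC.sup ρ σ).trans ((FIC.le_sup_left _ _) _ _ s2) ((FIC.le_sup_right _ _) _ _ s3))

end Pool.Agent.Helper79_MWD
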