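import Pool.Agent.Helper21_MVD.PEN
import Pool.Agent.Helper32_MVD.GEN

/-!
# Half thin local letters (lemma HT), part a

`pl`, `ql` are the lists of the isolated places before and behind the main block, `c` is the list
of the letters `z_1 … z_m` in the main block.  The letter `0` is the local letter, `r`, `s`, `t` are
simple letters.
-/

namespace Pool.Agent.Helper79_MWD

open Pool.Agent.Helper14_MV Pool.Agent.Helper2_MV Pool.Agent.MVD

/-- the standing hypotheses on the letters -/
structure Dat (pl c ql : List ℕ) (r s t : ℕ) : Prop where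
  p0 : 0 ∉ pl
  c0 : 0 ∉ c
  q0 : 0 ∉ ql
  r0 : r ≠ 0
  s0 : s ≠ 0
  t0 : t ≠ 0
  rs : r ≠ s
  rt : r ≠ t
  st : s ≠ t
  rp : r ∉ pl
  rc : r ∉ c
  rq : r ∉ ql
  sp : s ∉ pl
  sc : s ∉ c
  sq : s ∉ ql
  tp : t ∉ pl
  tc : t ∉ c
  tq : t ∉ ql
  np : pl.Nodup
  nc : c.Nodup
  nq : ql.Nodup
  ne : c ≠ []
  one : ∀ z ∈ c, pl.count z + ql.count z = 1

/-- the words of the pentagon -/
def Wd (pl c ql : List ℕ) (r s t a b : ℕ) : List ℕ :=
  pl ++ r :: (c ++ (List.replicate a 0 ++ s :: (List.replicate b 0 ++ t :: ql)))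

/-- the half thin words -/
def SH (pl c ql : List ℕ) (t : ℕ) (w : List ℕ) : Prop :=
  ∃ i, 1 ≤ i ∧ w = pl ++ 0 :: (c ++ (List.replicate i 0 ++ t :: ql))

/-- one occurrence of `0` before `s`, at least two behind, none behind `t` -/
def C0 (s t : ℕ) (w : List ℕ) : Prop :=
  ∃ i, 2 ≤ i ∧ w.filter (fun x => decide (x = 0 ∨ x = s ∨ x = t)) =
    0 :: s :: (List.replicate i 0 ++ [t])

/-- the language of `0` behind `c` -/
def B0 (pl c ql : List ℕ) (r s t : ℕ) (w : List ℕ) : Prop :=
  ∃ a b, ((a = 1 ∧ 2 ≤ b) ∨ 2 ≤ a) ∧ w = Wd pl c ql r s t a b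

/-- the intersection -/
def A0 (pl c ql : List ℕ) (r s t : ℕ) (w : List ℕ) : Prop :=
  ∃ i, 2 ≤ i ∧ w = Wd pl c ql r s t 1 i

theorem split {A B M F N : List ℕ} {y : ℕ} (h : A ++ y :: B = M ++ (F ++ N)) (hy : y ∉ F) :
    (∃ N1, A = M ++ (F ++ N1) ∧ N = N1 ++ y :: B) ∨
      (∃ M1, M = A ++ y :: M1 ∧ B = M1 ++ (F ++ N)) := by
  rw [List.append_eq_append_iff] at h
  rcases h with ⟨a', h1, h2⟩ | ⟨c', h1, h2⟩
  · rcases a' with _ | ⟨d, a'⟩
    · rcases F with _ | ⟨f, F⟩
      · left
        refine ⟨[], ?_, ?_⟩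
        · rw [h1]; simp
        · simpa using h2.symm
      · exfalso
        apply hy
        simp only [List.nil_append, List.cons_append, List.cons.injEq] at h2
        rw [h2.1]
        simp
    · right
      simp only [List.cons_append, List.cons.injEq] at h2
      exact ⟨a', by rw [h1, h2.1], h2.2⟩
  · rw [List.append_eq_append_iff] at h2
    rcases h2 with ⟨a', h3, h4⟩ | ⟨c'', h3, h4⟩
    · left
      exact ⟨a', by rw [h1, h3], h4⟩
    · rcases c'' with _ | ⟨d, c''⟩
      · left
        refine ⟨[], ?_, ?_⟩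
        · rw [h1, h3]; simp
        · simpa using h4.symm
      · exfalso
        apply hy
        simp only [List.cons_append, List.cons.injEq] at h4
        rw [h3, h4.1]
        simp

/-- linear letters are kept -/
theorem lin {β : FIC} (H : Iso3 β) {a : ℕ} {l : List ℕ} (h : RR β [a] l) : l = [a] := by
  have h1 := iso_aba H (a := a) (b := a + 1) (by omega) (h.append (RR.refl [a + 1, a]))
  have h2 : l ++ [a + 1, a] = [a] ++ [a + 1, a] := h1
  exact List.append_cancel_right h2

theorem filter_eq_nil' {l : List ℕ} {y : ℕ} (h : y ∉ l) : l.filter (fun x => decide (x = y)) = [] := by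
  rw [List.filter_eq_nil_iff]
  intro a ha
  have : a ≠ y := fun e => h (e ▸ ha)
  simpa using this

theorem count_filter_decide (l : List ℕ) (y : ℕ) :
    l.filter (fun x => decide (x = y)) = List.replicate (l.count y) y := by
  rw [← List.filter_beq]
  apply List.filter_congr
  intro a _
  by_cases h : a = y <;> simp [h]

theorem count_lin {β : FIC} (H : Iso3 β) {w w' : List ℕ} (h : RR β w w') {y : ℕ}
    (hy : w.count y = 1) : w'.count y = 1 := by
  have h1 := h.filter (fun x => decide (x = y))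
  rw [count_filter_decide, count_filter_decide, hy] at h1
  have h2 := lin H h1
  have h3 := congrArg List.length h2
  simpa using h3

theorem count_lin' {β : FIC} (H : Iso3 β) {w w' : List ℕ} (h : RR β w w') {y : ℕ} :
    w.count y = 1 ↔ w'.count y = 1 :=
  ⟨count_lin H h, count_lin H h.symm⟩

theorem replicate_comm (_k _l : ℕ) (X C : List ℕ) (hX : ∀ a ∈ X, a = 0) (hC : ∀ a ∈ C, a = 0) :
    C ++ X = X ++ C := by
  rw [List.eq_replicate_of_mem hX, List.eq_replicate_of_mem hC, List.replicate_append_replicate,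
    List.replicate_append_replicate, Nat.add_comm]

end Pool.Agent.Helper79_MWD
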