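import Pool.Agent.Helper79_MWD.HTa

/-!
# Half thin local letters (lemma HT), part b: the steps
-/

namespace Pool.Agent.Helper79_MWD

open Pool.Agent.Helper14_MV Pool.Agent.Helper2_MV Pool.Agent.MVD

variable {pl c ql : List ℕ} {r s t : ℕ}

theorem le_count_flatMap (φ : ℕ → List ℕ) {a z : ℕ} (h : a ∈ φ z) (l : List ℕ) :
    l.count z ≤ (l.flatMap φ).count a := by
  induction l with
  | nil => simp
  | cons d l ih =>
    rw [List.flatMap_cons, List.count_append, List.count_cons]
    by_cases hd : d = z
    · subst hd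
      have h1 : 1 ≤ (φ d).count a := List.one_le_count_iff.2 h
      simp only [beq_self_eq_true, if_true]
      omega
    · have hd' : (d == z) = false := by simpa using hd
      rw [hd']
      simp only [Bool.false_eq_true, if_false]
      omega

theorem wd_count (D : Dat pl c ql r s t) (a b : ℕ) (y : ℕ) (hy : y ≠ 0) :
    (Wd pl c ql r s t a b).count y ≤ 2 := by
  have h1 := List.nodup_iff_count_le_one.1 D.np y
  have h2 := List.nodup_iff_count_le_one.1 D.nc y
  have h3 := List.nodup_iff_count_le_one.1 D.nq y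
  have hr : y = r → pl.count y = 0 ∧ c.count y = 0 ∧ ql.count y = 0 ∧ y ≠ s ∧ y ≠ t := by
    rintro rfl
    exact ⟨List.count_eq_zero.2 D.rp, List.count_eq_zero.2 D.rc, List.count_eq_zero.2 D.rq, D.rs,
      D.rt⟩
  have hs : y = s → pl.count y = 0 ∧ c.count y = 0 ∧ ql.count y = 0 ∧ y ≠ r ∧ y ≠ t := by
    rintro rfl
    exact ⟨List.count_eq_zero.2 D.sp, List.count_eq_zero.2 D.sc, List.count_eq_zero.2 D.sq,
      D.rs.symm, D.st⟩
  have ht : y = t → pl.count y = 0 ∧ c.count y = 0 ∧ ql.count y = 0 ∧ y ≠ r ∧ y ≠ s := by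
    rintro rfl
    exact ⟨List.count_eq_zero.2 D.tp, List.count_eq_zero.2 D.tc, List.count_eq_zero.2 D.tq,
      D.rt.symm, D.st.symm⟩
  have hc : c.count y = 0 ∨ pl.count y + ql.count y = 1 := by
    by_cases h : y ∈ c
    · exact Or.inr (D.one y h)
    · exact Or.inl (List.count_eq_zero.2 h)
  have e : (Wd pl c ql r s t a b).count y = pl.count y + c.count y + ql.count y +
      (if r = y then 1 else 0) + (if s = y then 1 else 0) + (if t = y then 1 else 0) := by
    unfold Wd
    simp only [List.count_append, List.count_cons, List.count_replicate, beq_iff_eq]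
    rw [if_neg (Ne.symm hy), if_neg (Ne.symm hy)]
    omega
  rw [e]
  by_cases er : r = y
  · obtain ⟨k1, k2, k3, k4, k5⟩ := hr er.symm
    rw [if_pos er, if_neg (Ne.symm k4), if_neg (Ne.symm k5)]
    omega
  · by_cases es : s = y
    · obtain ⟨k1, k2, k3, k4, k5⟩ := hs es.symm
      rw [if_neg er, if_pos es, if_neg (Ne.symm k5)]
      omega
    · by_cases et : t = y
      · obtain ⟨k1, k2, k3, k4, k5⟩ := ht et.symm
        rw [if_neg er, if_neg es, if_pos et]
        omega
      · rw [if_neg er, if_neg es, if_neg et]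
        omega

theorem wd_r (D : Dat pl c ql r s t) (a b : ℕ) : (Wd pl c ql r s t a b).count r = 1 := by
  unfold Wd
  simp only [List.count_append, List.count_cons, List.count_replicate, beq_iff_eq,
    List.count_eq_zero.2 D.rp, List.count_eq_zero.2 D.rc, List.count_eq_zero.2 D.rq]
  rw [if_neg (Ne.symm D.r0), if_neg (Ne.symm D.r0), if_neg (Ne.symm D.rs), if_neg (Ne.symm D.rt)]
  simp

theorem wd_s (D : Dat pl c ql r s t) (a b : ℕ) : (Wd pl c ql r s t a b).count s = 1 := by
  unfold Wd
  simp only [List.count_append, List.count_cons, List.count_replicate, beq_iff_eq,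
    List.count_eq_zero.2 D.sp, List.count_eq_zero.2 D.sc, List.count_eq_zero.2 D.sq]
  rw [if_neg (Ne.symm D.s0), if_neg (Ne.symm D.s0), if_neg D.rs, if_neg (Ne.symm D.st)]
  simp

theorem wd_t (D : Dat pl c ql r s t) (a b : ℕ) : (Wd pl c ql r s t a b).count t = 1 := by
  unfold Wd
  simp only [List.count_append, List.count_cons, List.count_replicate, beq_iff_eq,
    List.count_eq_zero.2 D.tp, List.count_eq_zero.2 D.tc, List.count_eq_zero.2 D.tq]
  rw [if_neg (Ne.symm D.t0), if_neg (Ne.symm D.t0), if_neg D.rt, if_neg D.st]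
  simp

/-- a factor of a word of the language `A0` whose letters occur twice and which is not free of
repetitions consists of letters `0` -/
theorem zf (D : Dat pl c ql r s t) {i : ℕ} {M F N : List ℕ}
    (h : Wd pl c ql r s t 1 i = M ++ (F ++ N))
    (h2 : ∀ a ∈ F, 2 ≤ (Wd pl c ql r s t 1 i).count a) (hF : ¬ F.Nodup) : ∀ a ∈ F, a = 0 := by
  have hr : r ∉ F := fun hr => by have := h2 r hr; rw [wd_r D] at this; omega
  have hs : s ∉ F := fun hr => by have := h2 s hr; rw [wd_s D] at this; omega
  have ht : t ∉ F := fun hr => by have := h2 t hr; rw [wd_t D] at this; omega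
  have nod : ∀ A M' N' : List ℕ, A.Nodup → A = M' ++ (F ++ N') → False := by
    intro A M' N' hA e
    apply hF
    rw [e] at hA
    exact (List.nodup_append.1 (List.nodup_append.1 hA).2.1).1
  unfold Wd at h
  rcases split h hr with ⟨N1, e1, _⟩ | ⟨M1, _, e1⟩
  · exact (nod _ _ _ D.np e1).elim
  · have e2 : (c ++ [0]) ++ s :: (List.replicate i 0 ++ t :: ql) = M1 ++ (F ++ N) := by
      rw [← e1]
      simp
    rcases split e2 hs with ⟨N2, e3, _⟩ | ⟨M2, _, e3⟩
    · have hn : (c ++ [0]).Nodup := by
        rw [List.nodup_append]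
        refine ⟨D.nc, by simp, ?_⟩
        intro a ha b hb hab
        rw [List.mem_singleton] at hb
        exact D.c0 (hb ▸ hab ▸ ha)
      exact (nod _ _ _ hn e3).elim
    · rcases split e3 ht with ⟨N3, e4, _⟩ | ⟨M3, _, e4⟩
      · intro a ha
        have : a ∈ List.replicate i 0 := by
          rw [e4]
          simp [ha]
        exact List.eq_of_mem_replicate this
      · exact (nod _ _ _ D.nq e4).elim

/-- the left side and the right side of the identities `J2`, `J8` -/
def Ul (pl c : List ℕ) (r : ℕ) (e f : List ℕ) : List ℕ := pl ++ r :: (c ++ (e ++ f))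
def Ur (pl c : List ℕ) (r : ℕ) (e f : List ℕ) : List ℕ := pl ++ r :: (e ++ (c ++ f))

theorem ul_flatMap (φ : ℕ → List ℕ) (e f : List ℕ) : (Ul pl c r e f).flatMap φ =
    pl.flatMap φ ++ (φ r ++ (c.flatMap φ ++ (e.flatMap φ ++ f.flatMap φ))) := by
  unfold Ul
  rw [List.flatMap_append, List.flatMap_cons, List.flatMap_append, List.flatMap_append]

theorem ur_flatMap (φ : ℕ → List ℕ) (e f : List ℕ) : (Ur pl c r e f).flatMap φ =
    pl.flatMap φ ++ (φ r ++ (e.flatMap φ ++ (c.flatMap φ ++ f.flatMap φ))) := by
  unfold Ur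
  rw [List.flatMap_append, List.flatMap_cons, List.flatMap_append, List.flatMap_append]

/-- the moving letters occur twice -/
theorem two (D : Dat pl c ql r s t) (φ : ℕ → List ℕ) (M N e f : List ℕ) (he : ∀ a ∈ e, a = 0)
    (h2 : 2 ≤ (e ++ f).count 0) (hq : ∀ y, ql.count y ≤ f.count y) :
    ∀ a ∈ c.flatMap φ ++ e.flatMap φ, 2 ≤ (M ++ ((Ul pl c r e f).flatMap φ ++ N)).count a := by
  intro a ha
  have key : ∃ z, a ∈ φ z ∧ 2 ≤ (Ul pl c r e f).count z := by
    rw [List.mem_append, List.mem_flatMap, List.mem_flatMap] at ha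
    rcases ha with ⟨z, hz, haz⟩ | ⟨z, hz, haz⟩
    · refine ⟨z, haz, ?_⟩
      have h3 := D.one z hz
      have h4 : 1 ≤ c.count z := List.one_le_count_iff.2 hz
      have h5 := hq z
      unfold Ul
      simp only [List.count_append, List.count_cons]
      omega
    · refine ⟨z, haz, ?_⟩
      rw [he z hz]
      rw [List.count_append] at h2
      unfold Ul
      simp only [List.count_append, List.count_cons]
      omega
  obtain ⟨z, haz, hz⟩ := key
  have h6 := le_count_flatMap φ haz (Ul pl c r e f)
  simp only [List.count_append] at h6 ⊢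
  omega

theorem count_lr (φ : ℕ → List ℕ) (M N e f : List ℕ) (a : ℕ) :
    (M ++ ((Ul pl c r e f).flatMap φ ++ N)).count a =
      (M ++ ((Ur pl c r e f).flatMap φ ++ N)).count a := by
  rw [ul_flatMap, ur_flatMap]
  simp only [List.count_append]
  omega

/-- the identity `J2` does not change the words of `A0` -/
theorem stepX (D : Dat pl c ql r s t) (φ : ℕ → List ℕ) (M N : List ℕ)
    (h : A0 pl c ql r s t (M ++ ((Ul pl c r [0, 0] (s :: t :: ql)).flatMap φ ++ N)) ∨
      A0 pl c ql r s t (M ++ ((Ur pl c r [0, 0] (s :: t :: ql)).flatMap φ ++ N))) :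
    M ++ ((Ul pl c r [0, 0] (s :: t :: ql)).flatMap φ ++ N) =
      M ++ ((Ur pl c r [0, 0] (s :: t :: ql)).flatMap φ ++ N) := by
  have h2 := two D φ M N [0, 0] (s :: t :: ql) (by simp) (by simp)
    (by intro y; simp only [List.count_cons]; omega)
  have hcr := fun a => count_lr (pl := pl) (c := c) (r := r) φ M N [0, 0] (s :: t :: ql) a
  by_cases hx : φ 0 = []
  · rw [ul_flatMap, ur_flatMap]
    simp [hx]
  · have e00 : ([0, 0] : List ℕ).flatMap φ = φ 0 ++ φ 0 := by simp
    rw [ul_flatMap, ur_flatMap] at hcr h ⊢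
    rw [ul_flatMap] at h2
    rw [e00] at h h2 hcr ⊢
    have hmem : ∀ a, a ∈ c.flatMap φ ++ (φ 0 ++ φ 0) ↔ a ∈ (φ 0 ++ φ 0) ++ c.flatMap φ := by
      intro a
      simp only [List.mem_append]
      tauto
    have nn : ∀ L : List ℕ, ¬ (L ++ (φ 0 ++ φ 0)).Nodup ∧ ¬ ((φ 0 ++ φ 0) ++ L).Nodup := by
      intro L
      obtain ⟨d, hd⟩ := List.exists_mem_of_ne_nil _ hx
      have h3 : 2 ≤ (φ 0 ++ φ 0).count d := by
        have : 1 ≤ (φ 0).count d := List.one_le_count_iff.2 hd
        rw [List.count_append]
        omega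
      constructor
      · intro hn
        have := List.nodup_iff_count_le_one.1 hn d
        rw [List.count_append] at this
        omega
      · intro hn
        have := List.nodup_iff_count_le_one.1 hn d
        rw [List.count_append] at this
        omega
    have key : ∀ a ∈ c.flatMap φ ++ (φ 0 ++ φ 0), a = 0 := by
      rcases h with ⟨i, _, hi⟩ | ⟨i, _, hi⟩
      · apply zf D (i := i) (M := M ++ (pl.flatMap φ ++ φ r)) (N := (s :: t :: ql).flatMap φ ++ N)
          (F := c.flatMap φ ++ (φ 0 ++ φ 0)) (by rw [← hi]; simp only [List.append_assoc])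
          (by rw [← hi]; exact h2) (nn _).1
      · intro a ha
        refine zf D (i := i) (M := M ++ (pl.flatMap φ ++ φ r))
          (N := (s :: t :: ql).flatMap φ ++ N) (F := (φ 0 ++ φ 0) ++ c.flatMap φ)
          (by rw [← hi]; simp only [List.append_assoc]) ?_ (nn _).2 a ((hmem a).1 ha)
        intro b hb
        rw [← hi, ← hcr]
        exact h2 b ((hmem b).2 hb)
    have hcomm : c.flatMap φ ++ (φ 0 ++ φ 0) = (φ 0 ++ φ 0) ++ c.flatMap φ :=
      replicate_comm 0 0 _ _ (fun a ha => key a (by simp only [List.mem_append] at ha ⊢; tauto))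
        (fun a ha => key a (by simp only [List.mem_append] at ha ⊢; tauto))
    have e1 : c.flatMap φ ++ ((φ 0 ++ φ 0) ++ (s :: t :: ql).flatMap φ) =
        (φ 0 ++ φ 0) ++ (c.flatMap φ ++ (s :: t :: ql).flatMap φ) := by
      rw [← List.append_assoc, hcomm, List.append_assoc]
    rw [e1]

theorem c0_count (hs : s ≠ 0) (ht : t ≠ 0) (hst : s ≠ t) {w : List ℕ} (h : C0 s t w) :
    w.count s = 1 ∧ w.count t = 1 := by
  obtain ⟨i, _, hi⟩ := h
  have e : ∀ y, (y = 0 ∨ y = s ∨ y = t) →
      w.count y = (0 :: s :: (List.replicate i 0 ++ [t])).count y := by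
    intro y hy
    rw [← hi, List.count_filter]
    simpa using hy
  constructor
  · rw [e s (by simp)]
    simp only [List.count_cons, List.count_append, List.count_replicate, List.count_nil, beq_iff_eq,
      beq_self_eq_true, if_true]
    rw [if_neg (Ne.symm hs), if_neg (Ne.symm hst), if_neg (Ne.symm hs)]
  · rw [e t (by simp)]
    simp only [List.count_cons, List.count_append, List.count_replicate, List.count_nil, beq_iff_eq,
      beq_self_eq_true, if_true]
    rw [if_neg (Ne.symm ht), if_neg hst, if_neg (Ne.symm ht)]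

/-- the identities `J2`, `J8` keep `C0` -/
theorem stepZ (D : Dat pl c ql r s t) (φ : ℕ → List ℕ) (M N e f : List ℕ) (he : ∀ a ∈ e, a = 0)
    (h2 : 2 ≤ (e ++ f).count 0) (hq : ∀ y, ql.count y ≤ f.count y) :
    C0 s t (M ++ ((Ul pl c r e f).flatMap φ ++ N)) ↔
      C0 s t (M ++ ((Ur pl c r e f).flatMap φ ++ N)) := by
  have h3 := two D φ M N e f he h2 hq
  have hcr := fun a => count_lr (pl := pl) (c := c) (r := r) φ M N e f a
  have main : (M ++ ((Ul pl c r e f).flatMap φ ++ N)).count s = 1 →
      (M ++ ((Ul pl c r e f).flatMap φ ++ N)).count t = 1 →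
      (M ++ ((Ul pl c r e f).flatMap φ ++ N)).filter
        (fun x => decide (x = 0 ∨ x = s ∨ x = t)) =
      (M ++ ((Ur pl c r e f).flatMap φ ++ N)).filter
        (fun x => decide (x = 0 ∨ x = s ∨ x = t)) := by
    intro h4 h5
    have z : ∀ a ∈ c.flatMap φ ++ e.flatMap φ, (a = 0 ∨ a = s ∨ a = t) → a = 0 := by
      intro a ha h6
      rcases h6 with h6 | h6 | h6
      · exact h6
      · have := h3 a ha
        rw [h6, h4] at this
        omega
      · have := h3 a ha
        rw [h6, h5] at this
        omega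
    rw [ul_flatMap, ur_flatMap]
    have hcomm : (c.flatMap φ).filter (fun x => decide (x = 0 ∨ x = s ∨ x = t)) ++
        (e.flatMap φ).filter (fun x => decide (x = 0 ∨ x = s ∨ x = t)) =
        (e.flatMap φ).filter (fun x => decide (x = 0 ∨ x = s ∨ x = t)) ++
        (c.flatMap φ).filter (fun x => decide (x = 0 ∨ x = s ∨ x = t)) := by
      apply replicate_comm 0 0
      · intro a ha
        rw [List.mem_filter] at ha
        exact z a (List.mem_append.2 (Or.inr ha.1)) (by simpa using ha.2)
      · intro a ha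
        rw [List.mem_filter] at ha
        exact z a (List.mem_append.2 (Or.inl ha.1)) (by simpa using ha.2)
    simp only [List.filter_append]
    have e1 : ∀ R : List ℕ, (c.flatMap φ).filter (fun x => decide (x = 0 ∨ x = s ∨ x = t)) ++
        ((e.flatMap φ).filter (fun x => decide (x = 0 ∨ x = s ∨ x = t)) ++ R) =
        (e.flatMap φ).filter (fun x => decide (x = 0 ∨ x = s ∨ x = t)) ++
        ((c.flatMap φ).filter (fun x => decide (x = 0 ∨ x = s ∨ x = t)) ++ R) := by
      intro R
      rw [← List.append_assoc, hcomm, List.append_assoc]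
    rw [e1]
  constructor
  · intro h
    obtain ⟨h4, h5⟩ := c0_count D.s0 D.t0 D.st h
    have h6 := main h4 h5
    obtain ⟨i, hi, h7⟩ := h
    exact ⟨i, hi, by rw [← h6]; exact h7⟩
  · intro h
    obtain ⟨h4, h5⟩ := c0_count D.s0 D.t0 D.st h
    have h6 := main (by rw [hcr]; exact h4) (by rw [hcr]; exact h5)
    obtain ⟨i, hi, h7⟩ := h
    exact ⟨i, hi, by rw [h6]; exact h7⟩

/-- words with one letter different from `0` -/
theorem form {l : List ℕ} (h : l.filter (fun x => decide (x ≠ 0)) = [s]) :
    ∃ a b, l = List.replicate a 0 ++ s :: List.replicate b 0 := by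
  induction l with
  | nil => simp at h
  | cons d l ih =>
    by_cases hd : d = 0
    · subst hd
      rw [List.filter_cons_of_neg (by simp)] at h
      obtain ⟨a, b, e⟩ := ih h
      exact ⟨a + 1, b, by rw [e]; rfl⟩
    · rw [List.filter_cons_of_pos (by simpa using hd)] at h
      simp only [List.cons.injEq] at h
      refine ⟨0, l.length, ?_⟩
      have h3 : ∀ a ∈ l, a = 0 := by
        intro a ha
        by_contra hne
        have : a ∈ l.filter (fun x => decide (x ≠ 0)) := by
          rw [List.mem_filter]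
          exact ⟨ha, by simpa using hne⟩
        rw [h.2] at this
        simp at this
      rw [List.replicate_zero, List.nil_append, h.1, List.cons.injEq]
      exact ⟨rfl, List.eq_replicate_of_mem h3⟩

/-- moves of letters `0` keep `B0` -/
theorem stepY' (D : Dat pl c ql r s t) {M X G G' N : List ℕ} (hX : ∀ a ∈ X, a = 0) (hX' : X ≠ [])
    (hf : G.filter (fun x => decide (x ≠ 0)) = G'.filter (fun x => decide (x ≠ 0)))
    (hc : G.count 0 = G'.count 0) (hc' : 1 ≤ G.count 0)
    (h : B0 pl c ql r s t (M ++ (X ++ (G ++ (X ++ N))))) :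
    B0 pl c ql r s t (M ++ (X ++ (G' ++ (X ++ N)))) := by
  obtain ⟨a, b, hab, hw⟩ := h
  obtain ⟨d, X', rfl⟩ := List.exists_cons_of_ne_nil hX'
  have hd : d = 0 := hX d (by simp)
  subst hd
  have hp0 : (0 : ℕ) ∉ pl ++ r :: c := by
    intro h0
    rw [List.mem_append, List.mem_cons] at h0
    rcases h0 with h0 | h0 | h0
    · exact D.p0 h0
    · exact D.r0 h0.symm
    · exact D.c0 h0
  -- the prefix
  have e0 : (pl ++ r :: c) ++ ((List.replicate a 0 ++ s :: List.replicate b 0) ++ t :: ql) =
      M ++ ((0 :: X') ++ (G ++ ((0 :: X') ++ N))) := by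
    rw [hw]
    unfold Wd
    simp only [List.append_assoc, List.cons_append]
  have e1 : ∃ M1, M = (pl ++ r :: c) ++ M1 ∧
      (List.replicate a 0 ++ s :: List.replicate b 0) ++ t :: ql =
        M1 ++ ((0 :: X') ++ (G ++ ((0 :: X') ++ N))) := by
    rw [List.append_eq_append_iff] at e0
    rcases e0 with ⟨a', h1, h2⟩ | ⟨c', h1, h2⟩
    · exact ⟨a', h1, h2⟩
    · rcases c' with _ | ⟨y, c'⟩
      · exact ⟨[], by simp [h1], by simpa using h2.symm⟩
      · exfalso
        simp only [List.cons_append, List.cons.injEq] at h2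
        apply hp0
        rw [h1, ← h2.1]
        simp
  obtain ⟨M1, hM, e2⟩ := e1
  have ht : t ∉ (0 :: X') := fun h => D.t0 (hX t h)
  have e3 : (List.replicate a 0 ++ s :: List.replicate b 0) ++ t :: ql =
        (M1 ++ ((0 :: X') ++ G)) ++ ((0 :: X') ++ N) := by
    rw [e2]
    simp only [List.append_assoc]
  obtain ⟨N1, h1, h2⟩ : ∃ N1, (List.replicate a 0 ++ s :: List.replicate b 0) =
      (M1 ++ ((0 :: X') ++ G)) ++ ((0 :: X') ++ N1) ∧ N = N1 ++ t :: ql := by
    rcases split e3 ht with h | ⟨M2, h1, h2⟩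
    · exact h
    · exfalso
      apply D.q0
      rw [h2]
      simp
  -- the new middle part
  have hlf : (List.replicate a 0 ++ s :: List.replicate b 0).filter
      (fun x => decide (x ≠ 0)) = [s] := by
    have z : ∀ k : ℕ, (List.replicate k 0).filter (fun x => decide (x ≠ 0)) = [] := by
      intro k
      rw [List.filter_eq_nil_iff]
      intro x hx
      rw [List.eq_of_mem_replicate hx]
      simp
    rw [List.filter_append, z, List.filter_cons_of_pos (by simpa using D.s0), z]
    rfl
  have hl2 : (M1 ++ ((0 :: X') ++ (G' ++ ((0 :: X') ++ N1)))).filter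
      (fun x => decide (x ≠ 0)) = [s] := by
    rw [← hlf, h1]
    simp only [List.filter_append, List.append_assoc, hf]
  obtain ⟨a', b', e4⟩ := form hl2
  have hcount : (M1 ++ ((0 :: X') ++ (G' ++ ((0 :: X') ++ N1)))).count 0 = a + b := by
    have h3 := congrArg (List.count 0) h1
    simp only [List.count_append, List.count_cons, List.count_replicate, beq_iff_eq,
      if_true, beq_self_eq_true] at h3 ⊢
    rw [if_neg D.s0] at h3
    omega
  have hge : 3 ≤ a + b := by
    have h3 := congrArg (List.count 0) h1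
    simp only [List.count_append, List.count_cons, List.count_replicate, beq_iff_eq,
      if_true, beq_self_eq_true] at h3
    rw [if_neg D.s0] at h3
    omega
  have hab' : a' + b' = a + b := by
    rw [e4] at hcount
    simp only [List.count_append, List.count_cons, List.count_replicate, beq_iff_eq,
      if_true, beq_self_eq_true] at hcount
    rw [if_neg D.s0] at hcount
    omega
  have ha' : 1 ≤ a' := by
    by_contra h0
    have h0' : a' = 0 := by omega
    subst h0'
    rcases M1 with _ | ⟨y, M1⟩
    · simp only [List.nil_append, List.cons_append, List.replicate_zero, List.cons.injEq] at e4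
      exact D.s0 e4.1.symm
    · simp only [List.nil_append, List.cons_append, List.replicate_zero, List.cons.injEq] at e4
      obtain ⟨a1, rfl⟩ : ∃ a1, a = a1 + 1 := ⟨a - 1, by omega⟩
      rw [List.replicate_succ] at h1
      simp only [List.cons_append, List.cons.injEq] at h1
      exact D.s0 (e4.1.symm.trans h1.1.symm)
  refine ⟨a', b', by omega, ?_⟩
  rw [hM, h2]
  unfold Wd
  have e5 : (pl ++ r :: c) ++ M1 ++ ((0 :: X') ++ (G' ++ ((0 :: X') ++ (N1 ++ t :: ql)))) =
      (pl ++ r :: c) ++ ((M1 ++ ((0 :: X') ++ (G' ++ ((0 :: X') ++ N1)))) ++ t :: ql) := by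
    simp only [List.append_assoc]
  rw [e5, e4]
  simp only [List.append_assoc, List.cons_append]

/-- `x² s x ≈ x s x²` keeps `B0` -/
theorem stepY (D : Dat pl c ql r s t) (φ : ℕ → List ℕ) (M N : List ℕ) :
    B0 pl c ql r s t (M ++ (([0, 0, 1, 0] : List ℕ).flatMap φ ++ N)) ↔
      B0 pl c ql r s t (M ++ (([0, 1, 0, 0] : List ℕ).flatMap φ ++ N)) := by
  have e1 : ([0, 0, 1, 0] : List ℕ).flatMap φ = φ 0 ++ (φ 0 ++ (φ 1 ++ φ 0)) := by simp
  have e2 : ([0, 1, 0, 0] : List ℕ).flatMap φ = φ 0 ++ (φ 1 ++ (φ 0 ++ φ 0)) := by simp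
  rw [e1, e2]
  by_cases hx : φ 0 = []
  · simp [hx]
  · have z : ∀ w, B0 pl c ql r s t w → (∀ a ∈ φ 0, 3 ≤ w.count a) → ∀ a ∈ φ 0, a = 0 := by
      rintro w ⟨a, b, _, rfl⟩ h a' ha'
      by_contra hne
      have := h a' ha'
      have := wd_count D a b a' hne
      omega
    have one' : ∀ a ∈ φ 0, 1 ≤ (φ 0).count a := fun a ha => List.one_le_count_iff.2 ha
    have g1 : M ++ ((φ 0 ++ (φ 0 ++ (φ 1 ++ φ 0))) ++ N) =
        M ++ (φ 0 ++ ((φ 0 ++ φ 1) ++ (φ 0 ++ N))) := by simp only [List.append_assoc]
    have g2 : M ++ ((φ 0 ++ (φ 1 ++ (φ 0 ++ φ 0))) ++ N) =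
        M ++ (φ 0 ++ ((φ 1 ++ φ 0) ++ (φ 0 ++ N))) := by simp only [List.append_assoc]
    rw [g1, g2]
    have hz : ∀ L : List ℕ, (∀ a ∈ φ 0, a = 0) →
        (φ 0).filter (fun x => decide (x ≠ 0)) = [] := by
      intro _ h0
      rw [List.filter_eq_nil_iff]
      intro x hx'
      rw [h0 x hx']
      simp
    constructor
    · intro h
      have h0 := z _ h (by
        intro a ha
        have := one' a ha
        simp only [List.count_append]
        omega)
      refine stepY' D h0 hx ?_ ?_ ?_ h
      · rw [List.filter_append, List.filter_append, hz [] h0]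
        simp
      · rw [List.count_append, List.count_append]
        omega
      · obtain ⟨d, hd⟩ := List.exists_mem_of_ne_nil _ hx
        have := one' d hd
        rw [h0 d hd] at this
        rw [List.count_append]
        omega
    · intro h
      have h0 := z _ h (by
        intro a ha
        have := one' a ha
        simp only [List.count_append]
        omega)
      refine stepY' D h0 hx ?_ ?_ ?_ h
      · rw [List.filter_append, List.filter_append, hz [] h0]
        simp
      · rw [List.count_append, List.count_append]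
        omega
      · obtain ⟨d, hd⟩ := List.exists_mem_of_ne_nil _ hx
        have := one' d hd
        rw [h0 d hd] at this
        rw [List.count_append]
        omega

end Pool.Agent.Helper79_MWD
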