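import Pool.Agent.Helper79_MWD.HTb

/-!
# Half thin local letters (lemma HT), part c: the congruence keeps the languages
-/

namespace Pool.Agent.Helper79_MWD

open Pool.Agent.Helper14_MV Pool.Agent.Helper2_MV Pool.Agent.MVD

variable {pl c ql : List ℕ} {r s t : ℕ} {β : FIC}

/-- the substitution `s ↦ c`, `t ↦ t ql` -/
def hs (c ql : List ℕ) (s t : ℕ) (x : ℕ) : List ℕ :=
  if x = 0 then [0] else if x = s then c else if x = t then t :: ql else []

theorem hs_zero : hs c ql s t 0 = [0] := by
  unfold hs
  rw [if_pos rfl]

theorem hs_s (h : s ≠ 0) : hs c ql s t s = c := by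
  unfold hs
  rw [if_neg h, if_pos rfl]

theorem hs_t (h : t ≠ 0) (h' : s ≠ t) : hs c ql s t t = t :: ql := by
  unfold hs
  rw [if_neg h, if_neg (Ne.symm h'), if_pos rfl]

theorem hs_rep (k : ℕ) : (List.replicate k 0).flatMap (hs c ql s t) = List.replicate k 0 := by
  induction k with
  | zero => rfl
  | succ k ih => rw [List.replicate_succ, List.flatMap_cons, hs_zero, ih]; rfl

theorem hs_other {x : ℕ} (h0 : x ≠ 0) (h1 : x ≠ s) (h2 : x ≠ t) : hs c ql s t x = [] := by
  unfold hs
  rw [if_neg h0, if_neg h1, if_neg h2]

/-- deleting the other letters first -/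
theorem hs_filter (l : List ℕ) :
    l.flatMap (hs c ql s t) =
      (l.filter (fun x => decide (x = 0 ∨ x = s ∨ x = t))).flatMap (hs c ql s t) := by
  induction l with
  | nil => rfl
  | cons d l ih =>
    by_cases h : d = 0 ∨ d = s ∨ d = t
    · rw [List.filter_cons_of_pos (by simpa using h), List.flatMap_cons, List.flatMap_cons, ih]
    · rw [List.filter_cons_of_neg (by simpa using h), List.flatMap_cons, ih,
        hs_other (fun e => h (Or.inl e)) (fun e => h (Or.inr (Or.inl e)))
          (fun e => h (Or.inr (Or.inr e))), List.nil_append]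

theorem c_head (D : Dat pl c ql r s t) : ∃ z c', c = z :: c' ∧ z ≠ 0 ∧ z ≠ t ∧ z ≠ s ∧ z ≠ r := by
  obtain ⟨z, c', rfl⟩ := List.exists_cons_of_ne_nil D.ne
  refine ⟨z, c', rfl, ?_, ?_, ?_, ?_⟩
  · rintro rfl
    exact D.c0 (by simp)
  · rintro rfl
    exact D.tc (by simp)
  · rintro rfl
    exact D.sc (by simp)
  · rintro rfl
    exact D.rc (by simp)

/-- decoding the tail -/
theorem dec_tail (D : Dat pl c ql r s t) : ∀ (j : ℕ) (v : List ℕ),
    (∀ x ∈ v, x = 0 ∨ x = s ∨ x = t) →
      v.flatMap (hs c ql s t) = List.replicate j 0 ++ t :: ql → v = List.replicate j 0 ++ [t] := by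
  obtain ⟨z, c', hc, hz0, hzt, hzs, hzr⟩ := c_head D
  intro j
  induction j with
  | zero =>
    intro v hv h
    rcases v with _ | ⟨x, v⟩
    · simp at h
    · rcases hv x (by simp) with rfl | rfl | rfl
      · rw [List.flatMap_cons, hs_zero] at h
        simp only [List.replicate_zero, List.nil_append, List.cons_append, List.cons.injEq] at h
        exact absurd h.1.symm D.t0
      · rw [List.flatMap_cons, hs_s D.s0, hc] at h
        simp only [List.replicate_zero, List.nil_append, List.cons_append, List.cons.injEq] at h
        exact absurd h.1 hzt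
      · rw [List.flatMap_cons, hs_t D.t0 D.st] at h
        simp only [List.replicate_zero, List.nil_append, List.cons_append, List.cons.injEq,
          true_and] at h
        have h2 : v.flatMap (hs c ql s x) = [] := by
          have := congrArg List.length h
          rw [List.length_append] at this
          exact List.length_eq_zero_iff.1 (by omega)
        rcases v with _ | ⟨y, v⟩
        · rfl
        · exfalso
          rw [List.flatMap_cons, List.append_eq_nil_iff] at h2
          have h3 := h2.1
          rcases hv y (by simp) with rfl | rfl | rfl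
          · rw [hs_zero] at h3
            simp at h3
          · rw [hs_s D.s0] at h3
            exact D.ne h3
          · rw [hs_t D.t0 D.st] at h3
            simp at h3
  | succ j ih =>
    intro v hv h
    rcases v with _ | ⟨x, v⟩
    · simp at h
    · rcases hv x (by simp) with rfl | rfl | rfl
      · rw [List.flatMap_cons, hs_zero] at h
        simp only [List.replicate_succ, List.nil_append, List.cons_append, List.cons.injEq,
          true_and] at h
        rw [ih v (fun x hx => hv x (by simp [hx])) h]
        rfl
      · rw [List.flatMap_cons, hs_s D.s0, hc] at h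
        simp only [List.replicate_succ, List.cons_append, List.cons.injEq] at h
        exact absurd h.1 hz0
      · rw [List.flatMap_cons, hs_t D.t0 D.st] at h
        simp only [List.replicate_succ, List.cons_append, List.cons.injEq] at h
        exact absurd h.1 D.t0

/-- decoding -/
theorem dec_all (D : Dat pl c ql r s t) (j : ℕ) (v : List ℕ)
    (hv : ∀ x ∈ v, x = 0 ∨ x = s ∨ x = t)
    (h : v.flatMap (hs c ql s t) = 0 :: (c ++ (List.replicate j 0 ++ t :: ql))) :
    v = 0 :: s :: (List.replicate j 0 ++ [t]) := by
  obtain ⟨z, c', hc, hz0, hzt, hzs, hzr⟩ := c_head D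
  rcases v with _ | ⟨x, v⟩
  · simp at h
  rcases hv x (by simp) with rfl | rfl | rfl
  · rw [List.flatMap_cons, hs_zero] at h
    simp only [List.nil_append, List.cons_append, List.cons.injEq, true_and] at h
    rcases v with _ | ⟨y, v⟩
    · rw [List.flatMap_nil, hc] at h
      simp at h
    rcases hv y (by simp) with rfl | rfl | rfl
    · rw [List.flatMap_cons, hs_zero, hc] at h
      simp only [List.nil_append, List.cons_append, List.cons.injEq] at h
      exact absurd h.1.symm hz0
    · rw [List.flatMap_cons, hs_s D.s0] at h
      have h2 := List.append_cancel_left h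
      rw [dec_tail D j v (fun x hx => hv x (by simp [hx])) h2]
    · rw [List.flatMap_cons, hs_t D.t0 D.st, hc] at h
      simp only [List.cons_append, List.cons.injEq] at h
      exact absurd h.1.symm hzt
  · rw [List.flatMap_cons, hs_s D.s0, hc] at h
    simp only [List.cons_append, List.cons.injEq] at h
    exact absurd h.1 hz0
  · rw [List.flatMap_cons, hs_t D.t0 D.st] at h
    simp only [List.cons_append, List.cons.injEq] at h
    exact absurd h.1 D.t0

/-- the set `SH` is kept -/
def KS (pl c ql : List ℕ) (t : ℕ) (β : FIC) : Prop :=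
  ∀ w w', RR β w w' → SH pl c ql t w → SH pl c ql t w'

/-- the words of `C0` are kept -/
theorem keepC (D : Dat pl c ql r s t) (H : Iso3 β) (K : KS pl c ql t β) {w w' : List ℕ}
    (h : RR β w w') (hw : C0 s t w) : C0 s t w' := by
  obtain ⟨i, hi, hf⟩ := hw
  have h1 := h.filter (fun x => decide (x = 0 ∨ x = s ∨ x = t))
  rw [hf] at h1
  have h2 := (RR.refl (β := β) pl).append (h1.sub (hs c ql s t))
  have e1 : (0 :: s :: (List.replicate i 0 ++ [t])).flatMap (hs c ql s t) =
      0 :: (c ++ (List.replicate i 0 ++ t :: ql)) := by
    rw [List.flatMap_cons, List.flatMap_cons, List.flatMap_append, hs_zero, hs_s D.s0, hs_rep,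
      List.flatMap_cons, hs_t D.t0 D.st]
    simp
  rw [e1] at h2
  obtain ⟨j, hj, h3⟩ := K _ _ h2 ⟨i, by omega, rfl⟩
  have h4 := dec_all D j _ (fun x hx => by
    rw [List.mem_filter] at hx
    simpa using hx.2) (List.append_cancel_left h3)
  refine ⟨j, ?_, h4⟩
  by_contra hj2
  have hj1 : j = 1 := by omega
  subst hj1
  rw [h4] at h1
  have h5 := h1.filter (fun x => decide (x ≠ t))
  have z : ∀ k : ℕ, (List.replicate k 0).filter (fun x => decide (x ≠ t)) =
      List.replicate k 0 := by
    intro k
    rw [List.filter_eq_self]
    intro x hx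
    rw [List.eq_of_mem_replicate hx]
    simpa using Ne.symm D.t0
  have e2 : ∀ k : ℕ, (0 :: s :: (List.replicate k 0 ++ [t])).filter (fun x => decide (x ≠ t)) =
      0 :: s :: List.replicate k 0 := by
    intro k
    rw [List.filter_cons_of_pos (by simpa using Ne.symm D.t0),
      List.filter_cons_of_pos (by simpa using D.st), List.filter_append, z,
      List.filter_cons_of_neg (by simp)]
    simp
  rw [e2, e2] at h5
  have h6 := iso_aba H (Ne.symm D.s0) h5.symm
  have h7 := congrArg List.length h6
  simp at h7
  omega

/-- the restriction to a letter `y` and a simple letter -/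
theorem filt2 {y q : ℕ} (hyq : y ≠ q) {U V : List ℕ} (hU : q ∉ U) (hV : q ∉ V) :
    (U ++ q :: V).filter (fun x => decide (x = y ∨ x = q)) =
      List.replicate (U.count y) y ++ q :: List.replicate (V.count y) y := by
  have e : ∀ L : List ℕ, q ∉ L → L.filter (fun x => decide (x = y ∨ x = q)) =
      List.replicate (L.count y) y := by
    intro L hL
    rw [← count_filter_decide]
    apply List.filter_congr
    intro x hx
    have : x ≠ q := fun e => hL (e ▸ hx)
    simp [this]
  rw [List.filter_append, List.filter_cons_of_pos (by simp), e U hU, e V hV]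

/-- splitting at a letter which occurs once -/
theorem split1 {w : List ℕ} {q : ℕ} (h : w.count q = 1) :
    ∃ U V, w = U ++ q :: V ∧ q ∉ U ∧ q ∉ V := by
  have hm : q ∈ w := List.count_pos_iff.1 (by omega)
  obtain ⟨U, V, rfl⟩ := List.append_of_mem hm
  refine ⟨U, V, rfl, ?_, ?_⟩
  · intro hU
    have := List.one_le_count_iff.2 hU
    rw [List.count_append, List.count_cons_self] at h
    omega
  · intro hV
    have := List.one_le_count_iff.2 hV
    rw [List.count_append, List.count_cons_self] at h
    omega

theorem split_unique {U V U' V' : List ℕ} {q : ℕ} (hU : q ∉ U) (hU' : q ∉ U')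
    (h : U ++ q :: V = U' ++ q :: V') : U = U' ∧ V = V' := by
  induction U generalizing U' with
  | nil =>
    rcases U' with _ | ⟨x, U'⟩
    · simpa using h
    · simp only [List.nil_append, List.cons_append, List.cons.injEq] at h
      exact absurd (by rw [h.1]; simp) hU'
  | cons y U ih =>
    rcases U' with _ | ⟨x, U'⟩
    · simp only [List.nil_append, List.cons_append, List.cons.injEq] at h
      exact absurd (by rw [← h.1]; simp) hU
    · simp only [List.cons_append, List.cons.injEq] at h
      obtain ⟨h1, h2⟩ := ih (fun hh => hU (by simp [hh])) (fun hh => hU' (by simp [hh])) h.2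
      exact ⟨by rw [h.1, h1], h2⟩

/-- two simple letters keep their order -/
theorem order2 (H : Iso3 β) {w w' : List ℕ} (h : RR β w w') {p q : ℕ} (hpq : p ≠ q)
    {U V W : List ℕ} (hw : w = U ++ p :: (V ++ q :: W)) (hp : w.count p = 1) (hq : w.count q = 1) :
    w'.filter (fun x => decide (x = p ∨ x = q)) = [p, q] := by
  have e : w.filter (fun x => decide (x = p ∨ x = q)) = [p, q] := by
    rw [hw] at hp hq ⊢
    simp only [List.count_append, List.count_cons, beq_iff_eq, if_true, beq_self_eq_true] at hp hq
    rw [if_neg (Ne.symm hpq)] at hp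
    rw [if_neg hpq] at hq
    have n : ∀ L : List ℕ, L.count p = 0 → L.count q = 0 →
        L.filter (fun x => decide (x = p ∨ x = q)) = [] := by
      intro L h1 h2
      rw [List.filter_eq_nil_iff]
      intro x hx
      have h3 : x ≠ p := fun e => List.count_eq_zero.1 h1 (e ▸ hx)
      have h4 : x ≠ q := fun e => List.count_eq_zero.1 h2 (e ▸ hx)
      simp [h3, h4]
    rw [List.filter_append, List.filter_cons_of_pos (by simp), List.filter_append,
      List.filter_cons_of_pos (by simp), n U (by omega) (by omega), n V (by omega) (by omega),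
      n W (by omega) (by omega)]
    rfl
  have h1 := h.filter (fun x => decide (x = p ∨ x = q))
  rw [e] at h1
  exact iso_ab H hpq h1

/-- the substitution `r ↦ 0`, `s ↦ 1` -/
def ps (r s : ℕ) (x : ℕ) : List ℕ := if x = r then [0] else if x = s then [] else [x]

theorem ps_self {L : List ℕ} (h1 : r ∉ L) (h2 : s ∉ L) : L.flatMap (ps r s) = L := by
  induction L with
  | nil => rfl
  | cons d L ih =>
    have hd1 : d ≠ r := fun e => h1 (by simp [e])
    have hd2 : d ≠ s := fun e => h2 (by simp [e])
    rw [List.flatMap_cons, ih (fun h => h1 (by simp [h])) (fun h => h2 (by simp [h]))]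
    unfold ps
    rw [if_neg hd1, if_neg hd2]
    rfl

theorem ps_r : ps r s r = [0] := by
  unfold ps
  rw [if_pos rfl]

theorem ps_s (h : r ≠ s) : ps r s s = [] := by
  unfold ps
  rw [if_neg (Ne.symm h), if_pos rfl]

/-- the words of `B0` are kept -/
theorem keepB (D : Dat pl c ql r s t) (H : Iso3 β) (K : KS pl c ql t β) {w w' : List ℕ}
    (h : RR β w w') (hw : B0 pl c ql r s t w) : B0 pl c ql r s t w' := by
  obtain ⟨a, b, hab, hwd⟩ := hw
  obtain ⟨z, c', hc, hz0, hzt, hzs, hzr⟩ := c_head D
  have cr : w.count r = 1 := by rw [hwd]; exact wd_r D a b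
  have cs : w.count s = 1 := by rw [hwd]; exact wd_s D a b
  have ct : w.count t = 1 := by rw [hwd]; exact wd_t D a b
  have cr' := count_lin H h cr
  have cs' := count_lin H h cs
  have ct' := count_lin H h ct
  have z0 : ∀ (k : ℕ) (y : ℕ), y ≠ 0 → y ∉ List.replicate k 0 := fun k y hy hm =>
    hy (List.eq_of_mem_replicate hm)
  -- the order of `r`, `s` and of `s`, `t`
  have ors : w'.filter (fun x => decide (x = r ∨ x = s)) = [r, s] :=
    order2 H h D.rs (U := pl) (V := c ++ List.replicate a 0) (W := List.replicate b 0 ++ t :: ql)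
      (by rw [hwd]; unfold Wd; simp only [List.append_assoc]) cr cs
  have ost : w'.filter (fun x => decide (x = s ∨ x = t)) = [s, t] :=
    order2 H h D.st (U := pl ++ r :: (c ++ List.replicate a 0)) (V := List.replicate b 0) (W := ql)
      (by rw [hwd]; unfold Wd; simp only [List.append_assoc, List.cons_append]) cs ct
  -- split `w'` at `r`
  obtain ⟨U, V, hUV, hrU, hrV⟩ := split1 cr'
  have hsU : s ∉ U := by
    intro hsU
    rw [hUV, List.filter_append, List.filter_cons_of_pos (by simp)] at ors
    have : s ∈ U.filter (fun x => decide (x = r ∨ x = s)) := by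
      rw [List.mem_filter]
      exact ⟨hsU, by simp⟩
    rcases hL : U.filter (fun x => decide (x = r ∨ x = s)) with _ | ⟨x, L⟩
    · rw [hL] at this
      simp at this
    · rw [hL] at ors
      simp only [List.cons_append, List.cons.injEq] at ors
      have hx : x ∈ U.filter (fun x => decide (x = r ∨ x = s)) := by
        rw [hL]
        simp
      rw [List.mem_filter] at hx
      exact hrU (ors.1 ▸ hx.1)
  have csV : V.count s = 1 := by
    rw [hUV, List.count_append, List.count_cons, List.count_eq_zero.2 hsU] at cs'
    have : (r == s) = false := by simpa using D.rs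
    rw [this] at cs'
    simpa using cs'
  obtain ⟨V1, V2, hV, hsV1, hsV2⟩ := split1 csV
  have hrV1 : r ∉ V1 := fun hh => hrV (by rw [hV]; simp [hh])
  have hrV2 : r ∉ V2 := fun hh => hrV (by rw [hV]; simp [hh])
  -- no `0` in `U`: the substitution `r ↦ c`
  have h0U : 0 ∉ U := by
    intro h0
    let g : ℕ → List ℕ := fun x => if x = 0 then [0] else if x = r then c else
      if x = t then t :: ql else []
    have g0 : g 0 = [0] := by simp [g]
    have gr : g r = c := by simp [g, D.r0]
    have gt : g t = t :: ql := by simp [g, D.t0, Ne.symm D.rt]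
    have go : ∀ x, x ≠ 0 → x ≠ r → x ≠ t → g x = [] := by
      intro x h1 h2 h3
      simp [g, h1, h2, h3]
    have gn : ∀ L : List ℕ, (∀ x ∈ L, x ≠ 0 ∧ x ≠ r ∧ x ≠ t) → L.flatMap g = [] := by
      intro L hL
      rw [List.flatMap_eq_nil_iff]
      intro x hx
      obtain ⟨h1, h2, h3⟩ := hL x hx
      exact go x h1 h2 h3
    have grep : ∀ k : ℕ, (List.replicate k 0).flatMap g = List.replicate k 0 := by
      intro k
      induction k with
      | zero => rfl
      | succ k ih => rw [List.replicate_succ, List.flatMap_cons, g0, ih]; rfl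
    have h2 := (RR.refl (β := β) (pl ++ [0])).append (h.sub g)
    have e1 : (pl ++ [0]) ++ w.flatMap g =
        pl ++ 0 :: (c ++ (List.replicate (a + b) 0 ++ t :: ql)) := by
      rw [hwd]
      unfold Wd
      rw [List.flatMap_append, List.flatMap_cons, List.flatMap_append, List.flatMap_append,
        List.flatMap_cons, List.flatMap_append, List.flatMap_cons, grep, grep, gr, gt,
        gn pl (fun x hx => ⟨fun e => D.p0 (e ▸ hx), fun e => D.rp (e ▸ hx),
          fun e => D.tp (e ▸ hx)⟩),
        gn c (fun x hx => ⟨fun e => D.c0 (e ▸ hx), fun e => D.rc (e ▸ hx),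
          fun e => D.tc (e ▸ hx)⟩),
        gn ql (fun x hx => ⟨fun e => D.q0 (e ▸ hx), fun e => D.rq (e ▸ hx),
          fun e => D.tq (e ▸ hx)⟩), go s D.s0 (Ne.symm D.rs) D.st]
      simp only [List.append_assoc, List.nil_append, List.append_nil, List.cons_append,
        List.replicate_add]
    rw [e1] at h2
    obtain ⟨j, hj, h3⟩ := K _ _ h2 ⟨a + b, by omega, rfl⟩
    have h4 : w'.flatMap g = c ++ (List.replicate j 0 ++ t :: ql) := by
      have h5 : (pl ++ [0]) ++ w'.flatMap g =
          (pl ++ [0]) ++ (c ++ (List.replicate j 0 ++ t :: ql)) := by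
        rw [h3]
        simp
      exact List.append_cancel_left h5
    rw [hUV, List.flatMap_append, hc] at h4
    -- the first letter of `U` with a nonempty image is `0` or `t`
    have hh : ∀ L : List ℕ, r ∉ L → 0 ∈ L → ∃ x M, L.flatMap g = x :: M ∧ (x = 0 ∨ x = t) := by
      intro L
      induction L with
      | nil => intro _ h; simp at h
      | cons d L ih =>
        intro hr h0
        by_cases hd0 : d = 0
        · subst hd0
          exact ⟨0, L.flatMap g, by rw [List.flatMap_cons, g0]; rfl, Or.inl rfl⟩
        · by_cases hdt : d = t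
          · subst hdt
            exact ⟨d, ql ++ L.flatMap g, by rw [List.flatMap_cons, gt]; rfl, Or.inr rfl⟩
          · have hdr : d ≠ r := fun e => hr (by simp [e])
            obtain ⟨x, M, h1, h2⟩ := ih (fun hh => hr (by simp [hh]))
              (by
                rcases List.mem_cons.1 h0 with h5 | h5
                · exact absurd h5.symm hd0
                · exact h5)
            exact ⟨x, M, by rw [List.flatMap_cons, go d hd0 hdr hdt, h1]; rfl, h2⟩
    obtain ⟨x, M, h6, h7⟩ := hh U hrU h0
    rw [h6] at h4
    simp only [List.cons_append, List.cons.injEq] at h4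
    rcases h7 with h7 | h7
    · exact hz0 (h4.1.symm.trans h7)
    · exact hzt (h4.1.symm.trans h7)
  -- the substitution `ps`
  have h2 := h.sub (ps r s)
  have zr : ∀ k : ℕ, (List.replicate k 0).flatMap (ps r s) = List.replicate k 0 := fun k =>
    ps_self (z0 k r D.r0) (z0 k s D.s0)
  have e2 : w.flatMap (ps r s) = pl ++ 0 :: (c ++ (List.replicate (a + b) 0 ++ t :: ql)) := by
    rw [hwd]
    unfold Wd
    rw [List.flatMap_append, List.flatMap_cons, List.flatMap_append, List.flatMap_append,
      List.flatMap_cons, List.flatMap_append, List.flatMap_cons, zr, zr, ps_self D.rp D.sp,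
      ps_self D.rc D.sc, ps_self D.rq D.sq, ps_r, ps_s D.rs]
    have e3 : ps r s t = [t] := by
      unfold ps
      rw [if_neg (Ne.symm D.rt), if_neg (Ne.symm D.st)]
    rw [e3]
    simp only [List.append_assoc, List.nil_append, List.cons_append, List.replicate_add]
  rw [e2] at h2
  obtain ⟨k, hk, h3⟩ := K _ _ h2 ⟨a + b, by omega, rfl⟩
  have e4 : w'.flatMap (ps r s) = U ++ 0 :: (V1 ++ V2) := by
    rw [hUV, hV, List.flatMap_append, List.flatMap_cons, List.flatMap_append, List.flatMap_cons,
      ps_self hrU hsU, ps_self hrV1 hsV1, ps_self hrV2 hsV2, ps_r, ps_s D.rs]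
    rfl
  rw [e4] at h3
  obtain ⟨hU, hV12⟩ := split_unique h0U D.p0 h3
  -- position of `s`
  have pos : ∃ V1', V1 = c ++ V1' ∧ V1' ++ V2 = List.replicate k 0 ++ t :: ql := by
    rw [List.append_eq_append_iff] at hV12
    rcases hV12 with ⟨a', h5, h6⟩ | ⟨c'', h5, h6⟩
    · rcases a' with _ | ⟨y, a'⟩
      · exact ⟨[], by simp [h5], by simpa using h6⟩
      · exfalso
        have hyc : y ∈ c := by rw [h5]; simp
        have hyV1 : y ∉ V1 := by
          intro hy
          have hn := D.nc
          rw [h5, List.nodup_append] at hn
          exact hn.2.2 y hy y (by simp) rfl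
        have hy0 : y ≠ 0 := fun e => D.c0 (e ▸ hyc)
        have hyr : y ≠ r := fun e => D.rc (e ▸ hyc)
        have hys : y ≠ s := fun e => D.sc (e ▸ hyc)
        have hyt : y ≠ t := fun e => D.tc (e ▸ hyc)
        have h7 := h.filter (fun x => decide (x = y ∨ x = s))
        have hd : w = (pl ++ r :: (c ++ List.replicate a 0)) ++
            s :: (List.replicate b 0 ++ t :: ql) := by
          rw [hwd]
          unfold Wd
          simp only [List.append_assoc, List.cons_append]
        have hs1 : s ∉ pl ++ r :: (c ++ List.replicate a 0) := by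
          simp only [List.mem_append, List.mem_cons, not_or]
          exact ⟨D.sp, Ne.symm D.rs, D.sc, z0 a s D.s0⟩
        have hs2 : s ∉ List.replicate b 0 ++ t :: ql := by
          simp only [List.mem_append, List.mem_cons, not_or]
          exact ⟨z0 b s D.s0, D.st, D.sq⟩
        have hd' : w' = (pl ++ r :: V1) ++ s :: V2 := by
          rw [hUV, hV, hU]
          simp only [List.append_assoc, List.cons_append]
        have hs3 : s ∉ pl ++ r :: V1 := by
          simp only [List.mem_append, List.mem_cons, not_or]
          exact ⟨D.sp, Ne.symm D.rs, hsV1⟩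
        rw [hd, hd', filt2 hys hs1 hs2, filt2 hys hs3 hsV2] at h7
        have h8 := rep_iff H hys h7
        have h9 := D.one y hyc
        have c1 : c.count y = 1 := by
          have h10 := List.nodup_iff_count_le_one.1 D.nc y
          have h11 := List.one_le_count_iff.2 hyc
          omega
        have cV2 : V2.count y = 1 + ql.count y := by
          rw [h6]
          have hcy := c1
          rw [h5, List.count_append, List.count_eq_zero.2 hyV1] at hcy
          simp only [List.count_append, List.count_cons, List.count_replicate, beq_iff_eq] at hcy ⊢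
          rw [if_neg (Ne.symm hy0), if_neg (Ne.symm hyt)]
          omega
        have n1 : (pl ++ r :: (c ++ List.replicate a 0)).count y = pl.count y + 1 := by
          simp only [List.count_append, List.count_cons, List.count_replicate, beq_iff_eq]
          rw [if_neg (Ne.symm hy0), if_neg (Ne.symm hyr)]
          omega
        have n2 : (List.replicate b 0 ++ t :: ql).count y = ql.count y := by
          simp only [List.count_append, List.count_cons, List.count_replicate, beq_iff_eq]
          rw [if_neg (Ne.symm hy0), if_neg (Ne.symm hyt)]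
          omega
        have n3 : (pl ++ r :: V1).count y = pl.count y := by
          simp only [List.count_append, List.count_cons, beq_iff_eq]
          rw [if_neg (Ne.symm hyr), List.count_eq_zero.2 hyV1]
          omega
        rw [n1, n2, n3, cV2] at h8
        omega
    · exact ⟨c'', h5, h6.symm⟩
  obtain ⟨V1', hV1, hV1'⟩ := pos
  obtain ⟨a', b', e5, hab'⟩ : ∃ a' b', V1' = List.replicate a' 0 ∧
      V2 = List.replicate b' 0 ++ t :: ql ∧ a' + b' = k := by
    rw [List.append_eq_append_iff] at hV1'
    rcases hV1' with ⟨x', h5, h6⟩ | ⟨x', h5, h6⟩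
    · -- `replicate k 0 = V1' ++ x'`, `V2 = x' ++ t :: ql`
      refine ⟨V1'.length, x'.length, ?_, ?_, ?_⟩
      · apply List.eq_replicate_of_mem
        intro y hy
        have : y ∈ List.replicate k 0 := by rw [h5]; simp [hy]
        exact List.eq_of_mem_replicate this
      · have : x' = List.replicate x'.length 0 := by
          apply List.eq_replicate_of_mem
          intro y hy
          have : y ∈ List.replicate k 0 := by rw [h5]; simp [hy]
          exact List.eq_of_mem_replicate this
        rw [h6, ← this]
      · have := congrArg List.length h5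
        simpa using this.symm
    · rcases x' with _ | ⟨y, x'⟩
      · refine ⟨k, 0, ?_, ?_, rfl⟩
        · simpa using h5
        · simpa using h6.symm
      · exfalso
        simp only [List.cons_append, List.cons.injEq] at h6
        have htV1 : t ∈ V1 := by
          rw [hV1, h5, h6.1]
          simp
        rw [hUV, hV, List.filter_append, List.filter_cons_of_neg (by
          simp only [decide_eq_true_eq, not_or]
          exact ⟨D.rs, D.rt⟩), List.filter_append, List.filter_cons_of_pos (by simp)] at ost
        have hm : t ∈ V1.filter (fun x => decide (x = s ∨ x = t)) := by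
          rw [List.mem_filter]
          exact ⟨htV1, by simp⟩
        have hl := congrArg (List.idxOf s) ost
        rw [List.idxOf_cons_self] at hl
        have hns : s ∉ U.filter (fun x => decide (x = s ∨ x = t)) ++
            V1.filter (fun x => decide (x = s ∨ x = t)) := by
          simp only [List.mem_append, List.mem_filter, not_or, not_and]
          exact ⟨fun hh => absurd hh hsU, fun hh => absurd hh hsV1⟩
        rw [← List.append_assoc, List.idxOf_append_of_notMem hns, List.idxOf_cons_self,
          List.length_append] at hl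
        have hl2 := List.length_pos_of_mem hm
        omega
  have hV2 := hab'.1
  have hk' := hab'.2
  have hfin : w' = Wd pl c ql r s t a' b' := by
    rw [hUV, hV, hU, hV1, e5, hV2]
    unfold Wd
    simp only [List.append_assoc, List.cons_append]
  refine ⟨a', b', ?_, hfin⟩
  -- the condition
  have zc : ∀ L : List ℕ, 0 ∉ L → L.count 0 = 0 := fun L h => List.count_eq_zero.2 h
  have cnt0 : ∀ a b : ℕ, (Wd pl c ql r s t a b).count 0 = a + b := by
    intro a b
    unfold Wd
    simp only [List.count_append, List.count_cons, List.count_replicate, beq_iff_eq,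
      beq_self_eq_true, if_true, zc pl D.p0, zc c D.c0, zc ql D.q0]
    rw [if_neg D.r0, if_neg D.s0, if_neg D.t0]
    omega
  have fs : ∀ a b : ℕ, (Wd pl c ql r s t a b).filter (fun x => decide (x = 0 ∨ x = s)) =
      List.replicate a 0 ++ s :: List.replicate b 0 := by
    intro a b
    have hd : Wd pl c ql r s t a b = (pl ++ r :: (c ++ List.replicate a 0)) ++
        s :: (List.replicate b 0 ++ t :: ql) := by
      unfold Wd
      simp only [List.append_assoc, List.cons_append]
    have hs1 : s ∉ pl ++ r :: (c ++ List.replicate a 0) := by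
      simp only [List.mem_append, List.mem_cons, not_or]
      exact ⟨D.sp, Ne.symm D.rs, D.sc, z0 a s D.s0⟩
    have hs2 : s ∉ List.replicate b 0 ++ t :: ql := by
      simp only [List.mem_append, List.mem_cons, not_or]
      exact ⟨z0 b s D.s0, D.st, D.sq⟩
    rw [hd, filt2 (Ne.symm D.s0) hs1 hs2]
    have n1 : (pl ++ r :: (c ++ List.replicate a 0)).count 0 = a := by
      simp only [List.count_append, List.count_cons, List.count_replicate, beq_iff_eq,
        beq_self_eq_true, if_true, zc pl D.p0, zc c D.c0]
      rw [if_neg D.r0]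
      omega
    have n2 : (List.replicate b 0 ++ t :: ql).count 0 = b := by
      simp only [List.count_append, List.count_cons, List.count_replicate, beq_iff_eq,
        beq_self_eq_true, if_true, zc ql D.q0]
      rw [if_neg D.t0]
      omega
    rw [n1, n2]
  -- `a' ≠ 0`
  have ha' : a' ≠ 0 := by
    intro e0
    have h7 := (RR.refl (β := β) (pl ++ [0])).append (h.symm.sub (hs c ql s t))
    have gn : ∀ L : List ℕ, (∀ x ∈ L, x ≠ 0 ∧ x ≠ s ∧ x ≠ t) → L.flatMap (hs c ql s t) = [] := by
      intro L hL
      rw [List.flatMap_eq_nil_iff]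
      intro x hx
      obtain ⟨h1, h2, h3⟩ := hL x hx
      exact hs_other h1 h2 h3
    have im : ∀ a b : ℕ, (Wd pl c ql r s t a b).flatMap (hs c ql s t) =
        List.replicate a 0 ++ (c ++ (List.replicate b 0 ++ t :: ql)) := by
      intro a b
      unfold Wd
      rw [List.flatMap_append, List.flatMap_cons, List.flatMap_append, List.flatMap_append,
        List.flatMap_cons, List.flatMap_append, List.flatMap_cons, hs_rep, hs_rep, hs_s D.s0,
        hs_t D.t0 D.st,
        gn pl (fun x hx => ⟨fun e => D.p0 (e ▸ hx), fun e => D.sp (e ▸ hx),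
          fun e => D.tp (e ▸ hx)⟩),
        gn c (fun x hx => ⟨fun e => D.c0 (e ▸ hx), fun e => D.sc (e ▸ hx),
          fun e => D.tc (e ▸ hx)⟩),
        gn ql (fun x hx => ⟨fun e => D.q0 (e ▸ hx), fun e => D.sq (e ▸ hx),
          fun e => D.tq (e ▸ hx)⟩), hs_other D.r0 D.rs D.rt]
      simp only [List.nil_append, List.append_nil]
    rw [hfin, hwd, im, im, e0] at h7
    obtain ⟨j, hj, h8⟩ := K _ _ h7 ⟨b', by omega, by simp⟩
    have h9 : List.replicate a 0 ++ (c ++ (List.replicate b 0 ++ t :: ql)) =
        c ++ (List.replicate j 0 ++ t :: ql) := by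
      have h10 : (pl ++ [0]) ++ (List.replicate a 0 ++ (c ++ (List.replicate b 0 ++ t :: ql))) =
          (pl ++ [0]) ++ (c ++ (List.replicate j 0 ++ t :: ql)) := by
        rw [h8]
        simp
      exact List.append_cancel_left h10
    obtain ⟨a1, rfl⟩ : ∃ a1, a = a1 + 1 := ⟨a - 1, by omega⟩
    rw [hc, List.replicate_succ] at h9
    simp only [List.cons_append, List.cons.injEq] at h9
    exact hz0 h9.1.symm
  by_cases h2a : 2 ≤ a'
  · exact Or.inr h2a
  · left
    have h1a : a' = 1 := by omega
    refine ⟨h1a, ?_⟩
    by_contra h2b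
    rcases Nat.lt_or_ge b' 1 with h0 | h0
    · -- one letter `0` in `w'`
      have h7 : w'.count 0 = 1 := by rw [hfin, cnt0]; omega
      have h8 := count_lin H h.symm h7
      rw [hwd, cnt0] at h8
      omega
    · have h1b : b' = 1 := by omega
      have h7 := h.filter (fun x => decide (x = 0 ∨ x = s))
      rw [hfin, hwd, fs, fs] at h7
      have h8 := (rep_iff H (Ne.symm D.s0) h7).2 ⟨h1a, h1b⟩
      omega

end Pool.Agent.Helper79_MWD
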