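import Pool.Agent.Helper79_MWD.HT

/-!
# Half thin local letters (lemma HT) for the words `Wm P Q L`
-/

namespace Pool.Agent.Helper79_MWD

open Pool.Agent.Helper14_MV Pool.Agent.Helper2_MV Pool.Agent.MVD

/-- the half thin words `P y z_0 … z_(m-1) y^i Q` -/
def SHt (P Q : List ℕ) (m : ℕ) (w : List ℕ) : Prop :=
  ∃ i, 1 ≤ i ∧ w = Wm P Q (0 :: (zs (List.range m) ++ List.replicate i 0))

/-- the isolated places with their separators -/
def pq (P : List ℕ) : List ℕ := P.flatMap (fun e => [3 * e + 1, 3 * e + 5])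

theorem bw_pq (P : List ℕ) (L : List ℕ) : (P.map (fun e => e + 1)).flatMap
    (fun r => (if r = 0 then L else [3 * (r - 1) + 1]) ++ [3 * r + 2]) = pq P := by
  induction P with
  | nil => rfl
  | cons e P ih =>
    rw [List.map_cons, List.flatMap_cons, ih]
    unfold pq
    rw [List.flatMap_cons]
    have h1 : 3 * (e + 1) + 2 = 3 * e + 5 := by ring
    simp [h1]

theorem wm_eq (P Q L : List ℕ) : Wm P Q L = pq P ++ (L ++ 2 :: pq Q) := by
  unfold Wm Bw
  rw [List.flatMap_append, List.flatMap_cons, bw_pq, bw_pq]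
  simp

theorem mem_pq {P : List ℕ} {x : ℕ} : x ∈ pq P ↔ ∃ e ∈ P, x = 3 * e + 1 ∨ x = 3 * e + 5 := by
  unfold pq
  simp only [List.mem_flatMap, List.mem_cons, List.not_mem_nil, or_false]

theorem pq_nodup {P : List ℕ} (h : P.Nodup) : (pq P).Nodup := by
  induction P with
  | nil => simp [pq]
  | cons e P ih =>
    rw [List.nodup_cons] at h
    have ih' := ih h.2
    have hh : pq (e :: P) = [3 * e + 1, 3 * e + 5] ++ pq P := by
      unfold pq
      rw [List.flatMap_cons]
    rw [hh, List.nodup_append]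
    refine ⟨?_, ih', ?_⟩
    · rw [List.nodup_cons]
      refine ⟨?_, by simp⟩
      simp only [List.mem_singleton]
      omega
    · intro a ha b hb hab
      subst hab
      obtain ⟨e', he', h1⟩ := mem_pq.1 hb
      simp only [List.mem_cons, List.not_mem_nil, or_false] at ha
      have : e = e' := by omega
      exact h.1 (this ▸ he')

theorem pq_count (P : List ℕ) (e : ℕ) : (pq P).count (3 * e + 1) = P.count e := by
  induction P with
  | nil => simp [pq]
  | cons d P ih =>
    have hh : pq (d :: P) = [3 * d + 1, 3 * d + 5] ++ pq P := by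
      unfold pq
      rw [List.flatMap_cons]
    rw [hh, List.count_append, ih, List.count_cons, List.count_cons, List.count_cons,
      List.count_nil]
    have h5 : ((3 * d + 5) == (3 * e + 1)) = false := by
      rw [beq_eq_false_iff_ne]
      omega
    rw [h5]
    by_cases h : d = e
    · subst h
      simp only [beq_self_eq_true, if_true, Bool.false_eq_true, if_false]
      omega
    · have h1 : ((3 * d + 1) == (3 * e + 1)) = false := by
        rw [beq_eq_false_iff_ne]
        omega
      have h2 : (d == e) = false := by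
        rw [beq_eq_false_iff_ne]
        exact h
      rw [h1, h2]
      simp only [Bool.false_eq_true, if_false]
      omega

theorem zs_mem {m x : ℕ} : x ∈ zs (List.range m) ↔ ∃ e < m, x = 3 * e + 1 := by
  unfold zs
  simp only [List.mem_map, List.mem_range]
  constructor
  · rintro ⟨e, h1, h2⟩
    exact ⟨e, h1, h2.symm⟩
  · rintro ⟨e, h1, h2⟩
    exact ⟨e, h1, h2.symm⟩

theorem dat {P Q : List ℕ} {m : ℕ} (h1 : 1 ≤ m) (hp : (P ++ Q).Perm (List.range m)) :
    Dat (pq P) (zs (List.range m)) (pq Q) (3 * m + 8) (3 * m + 11) 2 := by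
  have hn : (P ++ Q).Nodup := hp.nodup_iff.2 List.nodup_range
  have hP : ∀ e ∈ P, e < m := fun e he => by
    have := hp.subset (List.mem_append.2 (Or.inl he))
    simpa using this
  have hQ : ∀ e ∈ Q, e < m := fun e he => by
    have := hp.subset (List.mem_append.2 (Or.inr he))
    simpa using this
  have nP : ∀ x, (∀ e < m, x ≠ 3 * e + 1 ∧ x ≠ 3 * e + 5) → x ∉ pq P := by
    intro x hx hm
    obtain ⟨e, he, h⟩ := mem_pq.1 hm
    have := hx e (hP e he)
    omega
  have nQ : ∀ x, (∀ e < m, x ≠ 3 * e + 1 ∧ x ≠ 3 * e + 5) → x ∉ pq Q := by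
    intro x hx hm
    obtain ⟨e, he, h⟩ := mem_pq.1 hm
    have := hx e (hQ e he)
    omega
  have nz : ∀ x, (∀ e < m, x ≠ 3 * e + 1 ∧ x ≠ 3 * e + 5) → x ∉ zs (List.range m) := by
    intro x hx hm
    obtain ⟨e, he, h⟩ := zs_mem.1 hm
    have := hx e he
    omega
  have a0 : ∀ e < m, (0 : ℕ) ≠ 3 * e + 1 ∧ (0 : ℕ) ≠ 3 * e + 5 := fun e he => by omega
  have ar : ∀ e < m, 3 * m + 8 ≠ 3 * e + 1 ∧ 3 * m + 8 ≠ 3 * e + 5 := fun e he => by omega
  have as' : ∀ e < m, 3 * m + 11 ≠ 3 * e + 1 ∧ 3 * m + 11 ≠ 3 * e + 5 := fun e he => by omega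
  have at' : ∀ e < m, (2 : ℕ) ≠ 3 * e + 1 ∧ (2 : ℕ) ≠ 3 * e + 5 := fun e he => by omega
  exact
    { p0 := nP 0 a0
      c0 := nz 0 a0
      q0 := nQ 0 a0
      r0 := by omega
      s0 := by omega
      t0 := by omega
      rs := by omega
      rt := by omega
      st := by omega
      rp := nP _ ar
      rc := nz _ ar
      rq := nQ _ ar
      sp := nP _ as'
      sc := nz _ as'
      sq := nQ _ as'
      tp := nP _ at'
      tc := nz _ at'
      tq := nQ _ at'
      np := pq_nodup (List.nodup_append.1 hn).1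
      nc := by
        unfold zs
        apply List.Nodup.map _ List.nodup_range
        intro a b hab
        simpa using hab
      nq := pq_nodup (List.nodup_append.1 hn).2.1
      ne := by
        intro h
        have : (zs (List.range m)).length = 0 := by rw [h]; rfl
        unfold zs at this
        rw [List.length_map, List.length_range] at this
        omega
      one := by
        intro z hz
        obtain ⟨e, he, rfl⟩ := zs_mem.1 hz
        rw [pq_count, pq_count, ← List.count_append, hp.count_eq]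
        exact List.count_eq_one_of_mem List.nodup_range (List.mem_range.2 he) }

theorem sht_iff {P Q : List ℕ} {m : ℕ} {w : List ℕ} :
    SHt P Q m w ↔ SH (pq P) (zs (List.range m)) (pq Q) 2 w := by
  unfold SHt SH
  simp only [wm_eq, List.cons_append, List.append_assoc]

/-- **Lemma HT.**  `xyx` isoterm and modularity: the set of the half thin words is not kept. -/
theorem ht {β : FIC} (hm : ModF β) (H : Iso3 β) {P Q : List ℕ} {m : ℕ} (h1 : 1 ≤ m)
    (hp : (P ++ Q).Perm (List.range m)) : ∃ w w', RR β w w' ∧ SHt P Q m w ∧ ¬ SHt P Q m w' := by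
  by_contra hcon
  apply ht_abs hm H (dat h1 hp)
  intro w w' h hw
  by_contra hw'
  exact hcon ⟨w, w', h, sht_iff.2 hw, fun hh => hw' (sht_iff.1 hh)⟩

/-- the statement N2T of helper11 -/
def N2tStmt : Prop := ∀ β : FIC, ModF β → Iso3 β → ∀ (P Q : List ℕ) (m : ℕ), 1 ≤ m →
  (P ++ Q).Perm (List.range m) →
    ∃ w', RR β (bw P Q m) w' ∧ ¬ (w'.count 0 = 2 ∧ ∀ e < m, Btw 0 (3 * e + 1) w')

theorem rr_pow {β : FIC} (h : RR β [0, 0] [0, 0, 0]) : ∀ i j, 2 ≤ i → 2 ≤ j →
    RR β (List.replicate i 0) (List.replicate j 0) := by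
  have h1 : ∀ i, 2 ≤ i → RR β [0, 0] (List.replicate i 0) := by
    intro i hi
    induction i, hi using Nat.le_induction with
    | base => exact RR.refl _
    | succ i hi ih =>
      have h2 : RR β ([0, 0] ++ [0]) (List.replicate i 0 ++ [0]) := ih.append (RR.refl [0])
      rw [← List.replicate_succ'] at h2
      exact β.trans h h2
  intro i j hi hj
  exact β.trans (β.symm (h1 i hi)) (h1 j hj)

/-- **N2'.**  With `x² ≈ x³`: the class of `P y c y Q` is not contained in the half thin words. -/
theorem n2p (hN : N2tStmt) {β : FIC} (hm : ModF β) (H : Iso3 β) (h3 : RR β [0, 0] [0, 0, 0])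
    {P Q : List ℕ} {m : ℕ} (h1 : 1 ≤ m) (hp : (P ++ Q).Perm (List.range m)) :
    ∃ w', RR β (bw P Q m) w' ∧ ¬ SHt P Q m w' := by
  by_contra hcon
  have hall : ∀ w', RR β (bw P Q m) w' → SHt P Q m w' := by
    intro w' hw
    by_contra hh
    exact hcon ⟨w', hw, hh⟩
  obtain ⟨w0, hw0, hn0⟩ := hN β hm H P Q m h1 hp
  have D := dat h1 hp
  obtain ⟨i, hi, rfl⟩ := hall w0 hw0
  have hi2 : 2 ≤ i := by
    by_contra h2
    have hi1 : i = 1 := by omega
    subst hi1
    apply hn0
    rw [wm_eq]
    refine ⟨?_, ?_⟩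
    · simp only [List.cons_append, List.count_append, List.count_cons, List.count_replicate,
        beq_iff_eq, beq_self_eq_true, if_true, List.count_eq_zero.2 D.p0,
        List.count_eq_zero.2 D.c0, List.count_eq_zero.2 D.q0]
      simp
    · intro e he
      refine ⟨pq P, zs (List.range m), 2 :: pq Q, ?_, zs_mem.2 ⟨e, he, rfl⟩⟩
      simp [List.replicate]
  have key : ∀ j, 1 ≤ j →
      RR β (bw P Q m) (Wm P Q (0 :: (zs (List.range m) ++ List.replicate j 0))) := by
    intro j hj
    rcases Nat.lt_or_ge j 2 with h | h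
    · have : j = 1 := by omega
      subst this
      exact RR.refl _
    · refine β.trans hw0 ?_
      rw [wm_eq, wm_eq]
      have h4 := rr_ctx (rr_pow h3 i j hi2 h) (pq P ++ 0 :: zs (List.range m)) (2 :: pq Q)
      simp only [List.append_assoc, List.cons_append] at h4 ⊢
      exact h4
  obtain ⟨w, w', h4, ⟨j, hj, rfl⟩, h5⟩ := ht hm H h1 hp
  exact h5 (hall w' (β.trans (key j hj) h4))

end Pool.Agent.Helper79_MWD
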